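import Mathlib

/-!
# The iterated correlation map: definitions

`crow A i` is the `i`-th row of the square matrix `A` after centring (its mean is subtracted), and
`corr A` is the matrix of the Pearson correlation coefficients between the rows of `A`.
-/

namespace Pool.Agent.H64.IC

open Filter Topology

noncomputable section

variable {ι : Type*} [Fintype ι]

/-- The `i`-th row of `A`, centred: `H a_i` where `H = I - (1/n) 1 1ᵀ`. -/
def crow (A : Matrix ι ι ℝ) (i j : ι) : ℝ := A i j - (∑ k, A i k) / Fintype.card ι

/-- The correlation map: `C(A)_{ij} = ⟨H a_i, H a_j⟩ / (‖H a_i‖ ‖H a_j‖)`. -/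
def corr (A : Matrix ι ι ℝ) : Matrix ι ι ℝ := fun i j =>
  (∑ k, crow A i k * crow A j k) / (√(∑ k, crow A i k ^ 2) * √(∑ k, crow A j k ^ 2))

/-- The admissible correlation matrices: positive semidefinite (hence symmetric), with unit
diagonal and without constant row. -/
structure IsCorrNd (A : Matrix ι ι ℝ) : Prop where
  psd : A.PosSemidef
  diag : ∀ i, A i i = 1
  row : ∀ i, ∃ j k, A i j ≠ A i k

end

end Pool.Agent.H64.IC
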