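import Mathlib

/-!
# The planar map

For positive parameters `s, t` (with `14 s + 2 t < 1`), the numbers `1`, `u`, `-v` with
probabilities `1 - 14 s - 2 t`, `14 s`, `2 t` have variance `VV s t u v`.  The planar map is
`(u, v) ↦ (UU s t u v, YY s t u v)`.
-/

namespace Pool.Agent.H64.IC

noncomputable section

open Real

/-- `aa x = (x / (1 - x²))²` -/
def aa (x : ℝ) : ℝ := x ^ 2 / (1 - x ^ 2) ^ 2

/-- the variance of the three values `1`, `u`, `-v`, as a sum over pairs -/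
def VV (s t u v : ℝ) : ℝ :=
  (1 - 14 * s - 2 * t) * (14 * s) * (1 - u) ^ 2 + (1 - 14 * s - 2 * t) * (2 * t) * (1 + v) ^ 2 +
    (14 * s) * (2 * t) * (u + v) ^ 2

def AA (s t u v : ℝ) : ℝ := aa u * VV s t u v

def BB (s t u v : ℝ) : ℝ := aa v * VV s t u v

/-- `phi c x = √(x / (x + c))` -/
def phi (c x : ℝ) : ℝ := √(x / (x + c))

/-- first coordinate of the planar map -/
def UU (s t u v : ℝ) : ℝ := phi (2 * s) (AA s t u v)

/-- second coordinate of the planar map -/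
def YY (s t u v : ℝ) : ℝ := phi (2 * t) (BB s t u v)

/-- the parameter range used -/
structure Good (s t : ℝ) : Prop where
  hs : 0 < s
  ht : 0 < t
  hp : 0 < 1 - 14 * s - 2 * t
  hd : 1.4 * (2 * t) ≤ 0.96 * (1 - 14 * s - 2 * t)

theorem VV_eq (s t u v : ℝ) : VV s t u v =
    (1 - 14 * s - 2 * t) + 14 * s * u ^ 2 + 2 * t * v ^ 2 -
      ((1 - 14 * s - 2 * t) + 14 * s * u - 2 * t * v) ^ 2 := by
  unfold VV; ring

theorem aa_nonneg (x : ℝ) : 0 ≤ aa x := by unfold aa; positivity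

theorem one_sub_sq_pos {x : ℝ} (h0 : 0 ≤ x) (h1 : x < 1) : 0 < 1 - x ^ 2 := by nlinarith

theorem aa_pos {x : ℝ} (h0 : 0 < x) (h1 : x < 1) : 0 < aa x := by
  have := one_sub_sq_pos h0.le h1
  unfold aa; positivity

theorem aa_lt {x y : ℝ} (h0 : 0 ≤ x) (hxy : x < y) (h1 : y < 1) : aa x < aa y := by
  have hx := one_sub_sq_pos h0 (hxy.trans h1)
  have hy := one_sub_sq_pos (h0.trans hxy.le) h1
  have h2 : x ^ 2 < y ^ 2 := by nlinarith
  unfold aa
  rw [div_lt_div_iff₀ (by positivity) (by positivity)]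
  have h3 : (1 - y ^ 2) ^ 2 ≤ (1 - x ^ 2) ^ 2 := by nlinarith
  nlinarith [sq_nonneg x, sq_nonneg (1 - x ^ 2), mul_pos hx hx]

theorem aa_le {x y : ℝ} (h0 : 0 ≤ x) (hxy : x ≤ y) (h1 : y < 1) : aa x ≤ aa y := by
  rcases hxy.eq_or_lt with h | h
  · rw [h]
  · exact (aa_lt h0 h h1).le

section
variable {s t : ℝ} (g : Good s t)
include g

theorem VV_pos {u v : ℝ} (hu : u < 1) (hv : 0 ≤ v) : 0 < VV s t u v := by
  have := g.hs; have := g.ht; have := g.hp
  have h1 : 0 < (1 - u) ^ 2 := by have : 0 < 1 - u := by linarith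
                                  positivity
  unfold VV
  positivity

theorem VV_le_v {u v w : ℝ} (hu : 0 ≤ u) (hv : 0 ≤ v) (hw : v ≤ w) :
    VV s t u v ≤ VV s t u w := by
  have := g.hs; have := g.ht; have := g.hp
  unfold VV
  have e1 : (1 + v) ^ 2 ≤ (1 + w) ^ 2 := by nlinarith
  have e2 : (u + v) ^ 2 ≤ (u + w) ^ 2 := by nlinarith
  have h1 := mul_le_mul_of_nonneg_left e1
    (show (0 : ℝ) ≤ (1 - 14 * s - 2 * t) * (2 * t) by positivity)
  have h2 := mul_le_mul_of_nonneg_left e2 (show (0 : ℝ) ≤ (14 * s) * (2 * t) by positivity)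
  linarith

theorem VV_anti_u {u w v : ℝ} (hu : 0 ≤ u) (huw : u ≤ w) (hw : w ≤ 0.52) (hv : 0 ≤ v)
    (hv' : v ≤ 0.17) : VV s t w v ≤ VV s t u v := by
  have h1 := g.hs; have h2 := g.ht; have h3 := g.hp; have h4 := g.hd
  have key : VV s t u v - VV s t w v =
      (w - u) * (14 * s) * ((1 - 14 * s - 2 * t) * (2 - u - w) - (2 * t) * (u + w + 2 * v)) := by
    unfold VV; ring
  have h5 : 0 ≤ (1 - 14 * s - 2 * t) * (2 - u - w) - (2 * t) * (u + w + 2 * v) := by
    have e1 : (1 - 14 * s - 2 * t) * 0.96 ≤ (1 - 14 * s - 2 * t) * (2 - u - w) :=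
      mul_le_mul_of_nonneg_left (by linarith) h3.le
    have e2 : (2 * t) * (u + w + 2 * v) ≤ (2 * t) * 1.4 :=
      mul_le_mul_of_nonneg_left (by linarith) (by linarith)
    linarith
  have h6 : 0 ≤ (w - u) * (14 * s) := by
    have : 0 ≤ w - u := by linarith
    positivity
  have := mul_nonneg h6 h5
  linarith

theorem AA_lt {u w v : ℝ} (hu : 0 < u) (huw : u < w) (hw : w < 1) (hv : 0 ≤ v) :
    AA s t u v < AA s t w v := by
  have h1 := g.hs; have h2 := g.ht; have h3 := g.hp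
  have hw0 : 0 < w := hu.trans huw
  have e (x : ℝ) (hx0 : 0 < x) (hx1 : x < 1) : AA s t x v =
      (1 - 14 * s - 2 * t) * (14 * s) * (x / (1 + x)) ^ 2 +
      (1 - 14 * s - 2 * t) * (2 * t) * (1 + v) ^ 2 * aa x +
      (14 * s) * (2 * t) * (aa x * (x + v) ^ 2) := by
    have hx2 : (1 - x ^ 2) ≠ 0 := (one_sub_sq_pos hx0.le hx1).ne'
    have hx3 : (1 + x) ≠ 0 := by positivity
    have : aa x * (1 - x) ^ 2 = (x / (1 + x)) ^ 2 := by
      unfold aa
      have : (1 - x ^ 2) = (1 - x) * (1 + x) := by ring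
      have hx4 : (1 - x) ≠ 0 := by linarith
      rw [this]
      field_simp
    unfold AA VV
    rw [← this]; ring
  rw [e u hu (huw.trans hw), e w hw0 hw]
  have a1 := aa_lt hu.le huw hw
  have a2 : (u / (1 + u)) ^ 2 ≤ (w / (1 + w)) ^ 2 := by
    have : u / (1 + u) ≤ w / (1 + w) := by
      rw [div_le_div_iff₀ (by linarith) (by linarith)]; nlinarith
    have h0 : 0 ≤ u / (1 + u) := by positivity
    nlinarith
  have a3 : aa u * (u + v) ^ 2 ≤ aa w * (w + v) ^ 2 := by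
    apply mul_le_mul a1.le (by nlinarith) (by positivity) (aa_nonneg w)
  have b1 := mul_le_mul_of_nonneg_left a2
    (show (0 : ℝ) ≤ (1 - 14 * s - 2 * t) * (14 * s) by positivity)
  have b2 := mul_lt_mul_of_pos_left a1
    (show (0 : ℝ) < (1 - 14 * s - 2 * t) * (2 * t) * (1 + v) ^ 2 by positivity)
  have b3 := mul_le_mul_of_nonneg_left a3
    (show (0 : ℝ) ≤ (14 * s) * (2 * t) by positivity)
  linarith

theorem AA_le_u {u w v : ℝ} (hu : 0 < u) (huw : u ≤ w) (hw : w < 1) (hv : 0 ≤ v) :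
    AA s t u v ≤ AA s t w v := by
  rcases huw.eq_or_lt with h | h
  · rw [h]
  · exact (AA_lt g hu h hw hv).le

theorem AA_le_v {u v w : ℝ} (hu : 0 ≤ u) (hv : 0 ≤ v) (hw : v ≤ w) :
    AA s t u v ≤ AA s t u w :=
  mul_le_mul_of_nonneg_left (VV_le_v g hu hv hw) (aa_nonneg u)

theorem BB_le_v {u v w : ℝ} (hu : 0 ≤ u) (hv : 0 ≤ v) (hw : v ≤ w) (hw1 : w < 1) (hu1 : u < 1) :
    BB s t u v ≤ BB s t u w :=
  mul_le_mul (aa_le hv hw hw1) (VV_le_v g hu hv hw) (VV_pos g hu1 hv).le (aa_nonneg w)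

theorem BB_anti_u {u w v : ℝ} (hu : 0 ≤ u) (huw : u ≤ w) (hw : w ≤ 0.52) (hv : 0 ≤ v)
    (hv' : v ≤ 0.17) : BB s t w v ≤ BB s t u v :=
  mul_le_mul_of_nonneg_left (VV_anti_u g hu huw hw hv hv') (aa_nonneg v)

end

/-! ### the function `phi` -/

theorem phi_nonneg (c x : ℝ) : 0 ≤ phi c x := Real.sqrt_nonneg _

theorem phi_sq {c x : ℝ} (hc : 0 < c) (hx : 0 ≤ x) : phi c x ^ 2 = x / (x + c) :=
  Real.sq_sqrt (by positivity)

theorem phi_lt_one {c x : ℝ} (hc : 0 < c) (hx : 0 ≤ x) : phi c x < 1 := by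
  have h1 := phi_sq hc hx
  have h2 : x / (x + c) < 1 := by rw [div_lt_one (by positivity)]; linarith
  nlinarith [phi_nonneg c x]

theorem phi_pos {c x : ℝ} (hc : 0 < c) (hx : 0 < x) : 0 < phi c x :=
  Real.sqrt_pos.2 (by positivity)

theorem phi_le {c x y : ℝ} (hc : 0 < c) (hx : 0 ≤ x) (hxy : x ≤ y) : phi c x ≤ phi c y := by
  apply Real.sqrt_le_sqrt
  rw [div_le_div_iff₀ (by positivity) (by linarith)]
  nlinarith

theorem phi_inj {c x y : ℝ} (hc : 0 < c) (hx : 0 ≤ x) (hy : 0 ≤ y) (h : phi c x = phi c y) :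
    x = y := by
  have h1 := phi_sq hc hx
  have h2 := phi_sq hc hy
  rw [h, h2, div_eq_div_iff (by positivity) (by positivity)] at h1
  have : c * (y - x) = 0 := by linarith
  rcases mul_eq_zero.1 this with h3 | h3 <;> linarith

/-- comparison of `phi c x` with a number -/
theorem lt_phi {c x y : ℝ} (hc : 0 < c) (hx : 0 ≤ x) (hy : 0 ≤ y) :
    y < phi c x ↔ y ^ 2 * (x + c) < x := by
  rw [phi, Real.lt_sqrt hy, lt_div_iff₀ (by positivity)]

theorem phi_lt {c x y : ℝ} (hc : 0 < c) (hx : 0 ≤ x) (hy : 0 < y) :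
    phi c x < y ↔ x < y ^ 2 * (x + c) := by
  rw [phi, Real.sqrt_lt' hy, div_lt_iff₀ (by positivity)]

/-! ### monotonicity and injectivity of the planar map -/

section
variable {s t : ℝ} (g : Good s t)
include g

theorem UU_mono {u u' v v' : ℝ} (hu : 0 < u) (huu : u ≤ u') (hu' : u' < 1) (hv : 0 ≤ v)
    (hvv : v ≤ v') : UU s t u v ≤ UU s t u' v' := by
  have h2s : 0 < 2 * s := by linarith [g.hs]
  apply phi_le h2s (mul_nonneg (aa_nonneg _) (VV_pos g (by linarith) hv).le)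
  exact (AA_le_v g hu.le hv hvv).trans (AA_le_u g hu huu hu' (hv.trans hvv))

theorem YY_mono {u u' v v' : ℝ} (hu : 0 ≤ u) (huu : u ≤ u') (hu' : u' ≤ 0.52) (hv : 0 ≤ v)
    (hvv : v ≤ v') (hv' : v' ≤ 0.17) : YY s t u' v ≤ YY s t u v' := by
  have h2t : 0 < 2 * t := by linarith [g.ht]
  apply phi_le h2t (mul_nonneg (aa_nonneg _) (VV_pos g (by linarith) hv).le)
  exact (BB_anti_u g hu huu hu' hv (hvv.trans hv')).trans
    (BB_le_v g hu hv hvv (by linarith) (by linarith))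

theorem UU_pos {u v : ℝ} (hu : 0 < u) (hu1 : u < 1) (hv : 0 ≤ v) : 0 < UU s t u v :=
  phi_pos (by linarith [g.hs]) (mul_pos (aa_pos hu hu1) (VV_pos g hu1 hv))

theorem UU_lt_one {u v : ℝ} (hu1 : u < 1) (hv : 0 ≤ v) : UU s t u v < 1 :=
  phi_lt_one (by linarith [g.hs]) (mul_nonneg (aa_nonneg _) (VV_pos g hu1 hv).le)

theorem YY_pos {u v : ℝ} (hu1 : u < 1) (hv : 0 < v) (hv1 : v < 1) : 0 < YY s t u v :=
  phi_pos (by linarith [g.ht]) (mul_pos (aa_pos hv hv1) (VV_pos g hu1 hv.le))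

theorem YY_lt_one {u v : ℝ} (hu1 : u < 1) (hv : 0 ≤ v) : YY s t u v < 1 :=
  phi_lt_one (by linarith [g.ht]) (mul_nonneg (aa_nonneg _) (VV_pos g hu1 hv).le)

theorem inj_aux {u v u' v' : ℝ} (hu : 0 < u) (hu1 : u < 1) (hv : 0 < v) (hv1 : v < 1)
    (hu' : 0 < u') (hu1' : u' < 1) (hv' : 0 < v') (hv1' : v' < 1)
    (hA : AA s t u v = AA s t u' v') (hB : BB s t u v = BB s t u' v')
    (hV : VV s t u' v' ≤ VV s t u v) : u = u' ∧ v = v' := by
  have V0 := VV_pos g hu1 hv.le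
  have V0' := VV_pos g hu1' hv'.le
  have huu : u ≤ u' := by
    by_contra h
    push Not at h
    have h1 := aa_lt hu'.le h hu1
    have : AA s t u' v' < AA s t u v := by
      unfold AA
      calc aa u' * VV s t u' v' ≤ aa u' * VV s t u v :=
            mul_le_mul_of_nonneg_left hV (aa_nonneg _)
        _ < aa u * VV s t u v := mul_lt_mul_of_pos_right h1 V0
    linarith
  have hvv : v ≤ v' := by
    by_contra h
    push Not at h
    have h1 := aa_lt hv'.le h hv1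
    have : BB s t u' v' < BB s t u v := by
      unfold BB
      calc aa v' * VV s t u' v' ≤ aa v' * VV s t u v :=
            mul_le_mul_of_nonneg_left hV (aa_nonneg _)
        _ < aa v * VV s t u v := mul_lt_mul_of_pos_right h1 V0
    linarith
  have hu2 : u = u' := by
    rcases huu.eq_or_lt with h | h
    · exact h
    · have h1 := AA_lt g hu h hu1' hv'.le
      have h2 := AA_le_v g hu.le hv.le hvv
      linarith
  subst hu2
  refine ⟨rfl, ?_⟩
  have hV2 : VV s t u v = VV s t u v' := mul_left_cancel₀ (aa_pos hu hu1).ne' hA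
  rcases hvv.eq_or_lt with h | h
  · exact h
  · have h1 := aa_lt hv.le h hv1'
    have : BB s t u v < BB s t u v' := by
      unfold BB
      rw [← hV2]
      exact mul_lt_mul_of_pos_right h1 V0
    linarith

theorem planar_inj {u v u' v' : ℝ} (hu : 0 < u) (hu1 : u < 1) (hv : 0 < v) (hv1 : v < 1)
    (hu' : 0 < u') (hu1' : u' < 1) (hv' : 0 < v') (hv1' : v' < 1)
    (h1 : UU s t u v = UU s t u' v') (h2 : YY s t u v = YY s t u' v') : u = u' ∧ v = v' := by
  have V0 := VV_pos g hu1 hv.le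
  have V0' := VV_pos g hu1' hv'.le
  have hA : AA s t u v = AA s t u' v' := phi_inj (by linarith [g.hs])
    (mul_nonneg (aa_nonneg _) V0.le) (mul_nonneg (aa_nonneg _) V0'.le) h1
  have hB : BB s t u v = BB s t u' v' := phi_inj (by linarith [g.ht])
    (mul_nonneg (aa_nonneg _) V0.le) (mul_nonneg (aa_nonneg _) V0'.le) h2
  rcases le_total (VV s t u' v') (VV s t u v) with h | h
  · exact inj_aux g hu hu1 hv hv1 hu' hu1' hv' hv1' hA hB h
  · have := inj_aux g hu' hu1' hv' hv1' hu hu1 hv hv1 hA.symm hB.symm h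
    exact ⟨this.1.symm, this.2.symm⟩

end

end

end Pool.Agent.H64.IC
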