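import Pool.Agent.H64.IC.Defs
import Pool.Agent.H64.IC.Plane

/-!
# Reduction of the correlation map to the planar map on a symmetric family
-/

namespace Pool.Agent.H64.IC

open Finset

noncomputable section

/-! ### Gram matrices -/

section gram

variable {ι C : Type*} [Fintype ι] [Fintype C]

/-- the Gram matrix of the rows of `X` -/
def gram (X : ι → C → ℝ) : Matrix ι ι ℝ := fun i j => ∑ c, X i c * X j c

theorem gram_psd (X : ι → C → ℝ) : (gram X).PosSemidef := by
  have h : gram X = (Matrix.of X) * (Matrix.of X).conjTranspose := by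
    ext i j
    simp [gram, Matrix.mul_apply]
  rw [h]
  exact Matrix.posSemidef_self_mul_conjTranspose _

variable (X : ι → C → ℝ) (μ D : C → ℝ)

theorem crow_gram (hn : (Fintype.card ι : ℝ) ≠ 0)
    (hμ : ∀ c, ∑ k, X k c = Fintype.card ι * μ c) (i j : ι) :
    crow (gram X) i j = ∑ c, X i c * (X j c - μ c) := by
  have h : ∑ k, gram X i k = Fintype.card ι * ∑ c, X i c * μ c := by
    unfold gram
    rw [Finset.sum_comm, Finset.mul_sum]
    refine Finset.sum_congr rfl fun c _ => ?_
    rw [← Finset.mul_sum, hμ]; ring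
  unfold crow
  rw [h, mul_div_cancel_left₀ _ hn]
  unfold gram
  rw [← Finset.sum_sub_distrib]
  refine Finset.sum_congr rfl fun c _ => ?_
  ring

theorem sum_crow [DecidableEq C] (hn : (Fintype.card ι : ℝ) ≠ 0)
    (hμ : ∀ c, ∑ k, X k c = Fintype.card ι * μ c)
    (hS : ∀ c d, ∑ k, (X k c - μ c) * (X k d - μ d) = if c = d then Fintype.card ι * D c else 0)
    (i j : ι) :
    ∑ k, crow (gram X) i k * crow (gram X) j k = Fintype.card ι * ∑ c, D c * (X i c * X j c) := by
  have e : ∀ k, crow (gram X) i k * crow (gram X) j k =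
      ∑ c, ∑ d, X i c * X j d * ((X k c - μ c) * (X k d - μ d)) := by
    intro k
    rw [crow_gram X μ hn hμ, crow_gram X μ hn hμ, Finset.sum_mul_sum]
    refine Finset.sum_congr rfl fun c _ => Finset.sum_congr rfl fun d _ => ?_
    ring
  simp_rw [e]
  rw [Finset.sum_comm]
  rw [Finset.mul_sum]
  refine Finset.sum_congr rfl fun c _ => ?_
  rw [Finset.sum_comm]
  rw [Finset.sum_eq_single c]
  · rw [← Finset.mul_sum, hS, if_pos rfl]; ring
  · intro d _ hd
    rw [← Finset.mul_sum, hS, if_neg (Ne.symm hd), mul_zero]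
  · intro h; exact absurd (Finset.mem_univ c) h

theorem corr_gram [DecidableEq C] (hn : 0 < (Fintype.card ι : ℝ))
    (hμ : ∀ c, ∑ k, X k c = Fintype.card ι * μ c)
    (hS : ∀ c d, ∑ k, (X k c - μ c) * (X k d - μ d) = if c = d then Fintype.card ι * D c else 0)
    (hD : ∀ c, 0 ≤ D c) :
    corr (gram X) = gram (fun i c => √(D c) * X i c / √(∑ d, D d * X i d ^ 2)) := by
  ext i j
  have e2 : ∀ i, ∑ k, crow (gram X) i k ^ 2 = Fintype.card ι * ∑ c, D c * X i c ^ 2 := by
    intro i
    have := sum_crow X μ D hn.ne' hμ hS i i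
    simp_rw [← pow_two] at this
    exact this
  unfold corr
  rw [sum_crow X μ D hn.ne' hμ hS, e2, e2, Real.sqrt_mul hn.le, Real.sqrt_mul hn.le]
  unfold gram
  have e3 : ∀ c, √(D c) * X i c / √(∑ d, D d * X i d ^ 2) *
      (√(D c) * X j c / √(∑ d, D d * X j d ^ 2)) =
      D c * (X i c * X j c) / (√(∑ d, D d * X i d ^ 2) * √(∑ d, D d * X j d ^ 2)) := by
    intro c
    have : √(D c) * √(D c) = D c := Real.mul_self_sqrt (hD c)
    rw [div_mul_div_comm]
    congr 1
    linear_combination (X i c * X j c) * this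
  simp_rw [e3]
  rw [← Finset.sum_div]
  have h1 : √(Fintype.card ι : ℝ) * √(Fintype.card ι : ℝ) = Fintype.card ι :=
    Real.mul_self_sqrt hn.le
  have h2 : √(Fintype.card ι : ℝ) * √(∑ c, D c * X i c ^ 2) *
      (√(Fintype.card ι : ℝ) * √(∑ c, D c * X j c ^ 2)) =
      Fintype.card ι * (√(∑ c, D c * X i c ^ 2) * √(∑ c, D c * X j c ^ 2)) := by
    linear_combination (√(∑ c, D c * X i c ^ 2) * √(∑ c, D c * X j c ^ 2)) * h1
  rw [h2, mul_div_mul_left _ _ hn.ne']

end gram

/-! ### the symmetric family -/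

/-- the index set: `a` points of the first kind, `14 b` of the second, `2 c` of the third -/
abbrev Idx (a b c : ℕ) : Type := Fin a ⊕ ((Fin b × Fin 7 × Bool) ⊕ (Fin c × Bool))

/-- the coordinates of the ambient space `ℝ^{1 + 1 + 7}` -/
abbrev Co : Type := Option (Option (Fin 7))

/-- the sign attached to a Boolean -/
def sg : Bool → ℝ
  | true => 1
  | false => -1

/-- the configuration: `e₀`; `u e₀ ± r e_j`; `-v e₀ ± q f` -/
def XX (a b c : ℕ) (u r v q : ℝ) : Idx a b c → Co → ℝ
  | .inl _, none => 1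
  | .inl _, some _ => 0
  | .inr (.inl _), none => u
  | .inr (.inl _), some none => 0
  | .inr (.inl (_, j, e)), some (some k) => if k = j then sg e * r else 0
  | .inr (.inr _), none => -v
  | .inr (.inr (_, e)), some none => sg e * q
  | .inr (.inr _), some (some _) => 0

theorem card_Idx (a b c : ℕ) : Fintype.card (Idx a b c) = a + 14 * b + 2 * c := by
  simp [Fintype.card_sum, Fintype.card_prod, Fintype.card_fin, Fintype.card_bool]
  ring

/-- the mean of the configuration -/
def mmu (s t u v : ℝ) : Co → ℝ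
  | none => (1 - 14 * s - 2 * t) + 14 * s * u - 2 * t * v
  | some _ => 0

/-- the diagonal of the covariance matrix -/
def DD (s t u r v q : ℝ) : Co → ℝ
  | none => VV s t u v
  | some none => 2 * t * q ^ 2
  | some (some _) => 2 * s * r ^ 2

variable {a b c : ℕ}

theorem XX_mean (hn : 0 < (Fintype.card (Idx a b c) : ℝ)) (u r v q : ℝ) (x : Co) :
    ∑ k, XX a b c u r v q k x = Fintype.card (Idx a b c) *
      mmu (b / Fintype.card (Idx a b c)) (c / Fintype.card (Idx a b c)) u v x := by
  have hc : (a : ℝ) = (Fintype.card (Idx a b c) : ℝ) - 14 * b - 2 * c := by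
    rw [card_Idx]; push_cast; ring
  generalize (Fintype.card (Idx a b c) : ℝ) = N at hn hc ⊢
  have hN : N ≠ 0 := hn.ne'
  rcases x with _ | _ | x
  · simp only [Fintype.sum_sum_type, XX, mmu, Finset.sum_const, Finset.card_univ,
      Fintype.card_fin, Fintype.card_prod, Fintype.card_bool, nsmul_eq_mul]
    push_cast
    rw [hc]
    field_simp
    ring
  · simp [Fintype.sum_sum_type, XX, mmu, Fintype.sum_prod_type, sg]
  · simp [Fintype.sum_sum_type, XX, mmu, Fintype.sum_prod_type, sg]

theorem XX_cov (hn : 0 < (Fintype.card (Idx a b c) : ℝ)) (u r v q : ℝ) (x y : Co) :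
    ∑ k, (XX a b c u r v q k x -
        mmu (b / Fintype.card (Idx a b c)) (c / Fintype.card (Idx a b c)) u v x) *
      (XX a b c u r v q k y -
        mmu (b / Fintype.card (Idx a b c)) (c / Fintype.card (Idx a b c)) u v y) =
      if x = y then Fintype.card (Idx a b c) *
        DD (b / Fintype.card (Idx a b c)) (c / Fintype.card (Idx a b c)) u r v q x else 0 := by
  have hc : (a : ℝ) = (Fintype.card (Idx a b c) : ℝ) - 14 * b - 2 * c := by
    rw [card_Idx]; push_cast; ring
  generalize (Fintype.card (Idx a b c) : ℝ) = N at hn hc ⊢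
  have hN : N ≠ 0 := hn.ne'
  rcases x with _ | _ | x <;> rcases y with _ | _ | y
  · simp only [Fintype.sum_sum_type, XX, mmu, DD, Finset.sum_const, Finset.card_univ,
      Fintype.card_fin, Fintype.card_prod, Fintype.card_bool, nsmul_eq_mul, if_true, VV]
    push_cast
    rw [hc]
    field_simp
    ring
  · simp [Fintype.sum_sum_type, XX, mmu, Fintype.sum_prod_type, sg]
  · simp [Fintype.sum_sum_type, XX, mmu, Fintype.sum_prod_type, sg]
  · simp [Fintype.sum_sum_type, XX, mmu, Fintype.sum_prod_type, sg]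
  · simp [Fintype.sum_sum_type, XX, mmu, DD, Fintype.sum_prod_type, sg]
    field_simp
    norm_num
  · simp [Fintype.sum_sum_type, XX, mmu, Fintype.sum_prod_type, sg]
  · simp [Fintype.sum_sum_type, XX, mmu, Fintype.sum_prod_type, sg]
  · simp [Fintype.sum_sum_type, XX, mmu, Fintype.sum_prod_type, sg]
  · by_cases h : x = y
    · subst h
      simp [Fintype.sum_sum_type, XX, mmu, DD, Fintype.sum_prod_type, sg]
      field_simp
      norm_num
    · simp [Fintype.sum_sum_type, XX, mmu, Fintype.sum_prod_type, sg, h]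

/-- the symmetric family of correlation matrices -/
def MM (a b c : ℕ) (u v : ℝ) : Matrix (Idx a b c) (Idx a b c) ℝ :=
  gram (XX a b c u √(1 - u ^ 2) v √(1 - v ^ 2))

theorem phi_AA {s t u v : ℝ} (g : Good s t) (hu : 0 < u) (hu1 : u < 1) (hv : 0 ≤ v) :
    √(VV s t u v) * u / √(VV s t u v * u ^ 2 + 2 * s * (1 - u ^ 2) ^ 2) = UU s t u v := by
  have hV := VV_pos g hu1 hv
  have h1 := one_sub_sq_pos hu.le hu1
  have hs := g.hs
  unfold UU phi AA aa
  rw [show √(VV s t u v) * u = √(VV s t u v * u ^ 2) by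
    rw [Real.sqrt_mul hV.le, Real.sqrt_sq hu.le]]
  rw [← Real.sqrt_div (by positivity)]
  congr 1
  field_simp

theorem phi_BB {s t u v : ℝ} (g : Good s t) (hu1 : u < 1) (hv : 0 < v) (hv1 : v < 1) :
    √(VV s t u v) * v / √(VV s t u v * v ^ 2 + 2 * t * (1 - v ^ 2) ^ 2) = YY s t u v := by
  have hV := VV_pos g hu1 hv.le
  have h1 := one_sub_sq_pos hv.le hv1
  have ht := g.ht
  unfold YY phi BB aa
  rw [show √(VV s t u v) * v = √(VV s t u v * v ^ 2) by
    rw [Real.sqrt_mul hV.le, Real.sqrt_sq hv.le]]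
  rw [← Real.sqrt_div (by positivity)]
  congr 1
  field_simp

theorem phi_compl {V w c : ℝ} (hV : 0 < V) (hc : 0 < c) (hw : 0 < w) (hw1 : w < 1) :
    √(c * (1 - w ^ 2)) * √(1 - w ^ 2) / √(V * w ^ 2 + c * (1 - w ^ 2) ^ 2) =
      √(1 - (√V * w / √(V * w ^ 2 + c * (1 - w ^ 2) ^ 2)) ^ 2) := by
  have h1 := one_sub_sq_pos hw.le hw1
  have h2 : 0 < V * w ^ 2 + c * (1 - w ^ 2) ^ 2 := by positivity
  rw [div_pow, mul_pow, Real.sq_sqrt hV.le, Real.sq_sqrt h2.le,
    show 1 - V * w ^ 2 / (V * w ^ 2 + c * (1 - w ^ 2) ^ 2) =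
      (c * (1 - w ^ 2)) * (1 - w ^ 2) / (V * w ^ 2 + c * (1 - w ^ 2) ^ 2) by field_simp; ring,
    Real.sqrt_div (by positivity),
    Real.sqrt_mul (show 0 ≤ c * (1 - w ^ 2) by positivity) (1 - w ^ 2)]

/-- **Reduction.** On the symmetric family the correlation map acts as the planar map. -/
theorem corr_MM {u v : ℝ} (g : Good ((b : ℝ) / Fintype.card (Idx a b c))
      ((c : ℝ) / Fintype.card (Idx a b c))) (hn : 0 < (Fintype.card (Idx a b c) : ℝ))
    (hu : 0 < u) (hu1 : u < 1) (hv : 0 < v) (hv1 : v < 1) :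
    corr (MM a b c u v) =
      MM a b c (UU ((b : ℝ) / Fintype.card (Idx a b c)) ((c : ℝ) / Fintype.card (Idx a b c)) u v)
        (YY ((b : ℝ) / Fintype.card (Idx a b c)) ((c : ℝ) / Fintype.card (Idx a b c)) u v) := by
  have hu2 := one_sub_sq_pos hu.le hu1
  have hv2 := one_sub_sq_pos hv.le hv1
  unfold MM
  rw [corr_gram _ _ (DD ((b : ℝ) / Fintype.card (Idx a b c)) ((c : ℝ) / Fintype.card (Idx a b c))
    u √(1 - u ^ 2) v √(1 - v ^ 2)) hn (XX_mean hn _ _ _ _) (XX_cov hn _ _ _ _)]
  · rw [← phi_AA g hu hu1 hv.le, ← phi_BB g hu1 hv hv1]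
    generalize (b : ℝ) / Fintype.card (Idx a b c) = s at g
    generalize (c : ℝ) / Fintype.card (Idx a b c) = t at g
    have hV := VV_pos g hu1 hv.le
    have hs : 0 < 2 * s := by linarith [g.hs]
    have ht : 0 < 2 * t := by linarith [g.ht]
    congr 1
    ext i x
    have sgsq : ∀ e, sg e ^ 2 = 1 := by intro e; cases e <;> simp [sg]
    rcases i with i | ⟨i, j, e⟩ | ⟨i, e⟩
    · have : ∑ d, DD s t u √(1 - u ^ 2) v √(1 - v ^ 2) d *
          XX a b c u √(1 - u ^ 2) v √(1 - v ^ 2) (.inl i) d ^ 2 = VV s t u v := by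
        rw [Fintype.sum_option, Fintype.sum_option]
        simp [XX, DD]
      rw [this]
      rcases x with _ | x
      · simp only [XX, DD, mul_one]
        exact div_self (Real.sqrt_pos.2 hV).ne'
      · simp [XX]
    · have : ∑ d, DD s t u √(1 - u ^ 2) v √(1 - v ^ 2) d *
          XX a b c u √(1 - u ^ 2) v √(1 - v ^ 2) (.inr (.inl (i, j, e))) d ^ 2 =
            VV s t u v * u ^ 2 + 2 * s * (1 - u ^ 2) ^ 2 := by
        rw [Fintype.sum_option, Fintype.sum_option]
        simp only [XX, DD]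
        rw [Finset.sum_eq_single j]
        · rw [if_pos rfl, mul_pow, sgsq, Real.sq_sqrt hu2.le]; ring
        · intro k _ hk
          rw [if_neg hk]; ring
        · intro h; exact absurd (Finset.mem_univ _) h
      rw [this]
      rcases x with _ | _ | x
      · rfl
      · simp [XX]
      · by_cases h : x = j
        · subst h
          simp only [XX, DD, if_true]
          rw [← phi_compl hV hs hu hu1, Real.sq_sqrt hu2.le]
          ring
        · simp [XX, h]
    · have : ∑ d, DD s t u √(1 - u ^ 2) v √(1 - v ^ 2) d *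
          XX a b c u √(1 - u ^ 2) v √(1 - v ^ 2) (.inr (.inr (i, e))) d ^ 2 =
            VV s t u v * v ^ 2 + 2 * t * (1 - v ^ 2) ^ 2 := by
        rw [Fintype.sum_option, Fintype.sum_option]
        simp only [XX, DD]
        rw [mul_pow (sg e), sgsq, Real.sq_sqrt hv2.le]
        simp
        ring
      rw [this]
      rcases x with _ | _ | x
      · simp only [XX, DD]
        ring
      · simp only [XX, DD]
        rw [← phi_compl hV ht hv hv1, Real.sq_sqrt hv2.le]
        ring
      · simp [XX]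
  · intro x
    rcases x with _ | _ | x
    · exact (VV_pos g hu1 hv.le).le
    · simp only [DD]; have := g.ht; positivity
    · simp only [DD]; have := g.hs; positivity

end

end Pool.Agent.H64.IC
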