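import Pool.Agent.H64.IC.Planar
import Pool.Agent.H64.IC.Red

/-!
# From the planar map to the correlation map
-/

namespace Pool.Agent.H64.IC

open Filter Topology

noncomputable section

/-! ### reindexing -/

section reindex

variable {ι κ : Type*} [Fintype ι] [Fintype κ]

theorem crow_submatrix (A : Matrix ι ι ℝ) (e : κ ≃ ι) (i j : κ) :
    crow (A.submatrix e e) i j = crow A (e i) (e j) := by
  unfold crow
  rw [Fintype.card_congr e]
  congr 2
  exact e.sum_comp (fun k => A (e i) k)

theorem corr_submatrix (A : Matrix ι ι ℝ) (e : κ ≃ ι) :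
    corr (A.submatrix e e) = (corr A).submatrix e e := by
  ext i j
  simp only [corr, Matrix.submatrix_apply, crow_submatrix]
  rw [e.sum_comp (fun k => crow A (e i) k * crow A (e j) k),
    e.sum_comp (fun k => crow A (e i) k ^ 2), e.sum_comp (fun k => crow A (e j) k ^ 2)]

omit [Fintype ι] [Fintype κ] in
theorem IsCorrNd.submatrix {A : Matrix ι ι ℝ} (h : IsCorrNd A) (e : κ ≃ ι) :
    IsCorrNd (A.submatrix e e) where
  psd := h.psd.submatrix e
  diag := fun i => h.diag (e i)
  row := by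
    intro i
    obtain ⟨j, k, hjk⟩ := h.row (e i)
    exact ⟨e.symm j, e.symm k, by simpa using hjk⟩

end reindex

/-! ### entries of the family -/

variable {a b c : ℕ}

theorem MM_01 (u v : ℝ) (i : Fin a) (p : Fin b × Fin 7 × Bool) :
    MM a b c u v (.inl i) (.inr (.inl p)) = u := by
  unfold MM gram
  rw [Fintype.sum_option, Fintype.sum_option]
  simp [XX]

theorem MM_10 (u v : ℝ) (i : Fin a) (p : Fin b × Fin 7 × Bool) :
    MM a b c u v (.inr (.inl p)) (.inl i) = u := by
  unfold MM gram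
  rw [Fintype.sum_option, Fintype.sum_option]
  simp [XX]

theorem MM_02 (u v : ℝ) (i : Fin a) (p : Fin c × Bool) :
    MM a b c u v (.inl i) (.inr (.inr p)) = -v := by
  unfold MM gram
  rw [Fintype.sum_option, Fintype.sum_option]
  simp [XX]

theorem MM_20 (u v : ℝ) (i : Fin a) (p : Fin c × Bool) :
    MM a b c u v (.inr (.inr p)) (.inl i) = -v := by
  unfold MM gram
  rw [Fintype.sum_option, Fintype.sum_option]
  simp [XX]

theorem sg_mul (e : Bool) : sg e * sg e = 1 := by cases e <;> simp [sg]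

theorem MM_diag {u v : ℝ} (hu : 0 < u) (hu1 : u < 1) (hv : 0 < v) (hv1 : v < 1)
    (i : Idx a b c) : MM a b c u v i i = 1 := by
  have h1 := one_sub_sq_pos hu.le hu1
  have h2 := one_sub_sq_pos hv.le hv1
  unfold MM gram
  rw [Fintype.sum_option, Fintype.sum_option]
  rcases i with i | ⟨i, j, e⟩ | ⟨i, e⟩
  · simp [XX]
  · simp only [XX]
    rw [Finset.sum_eq_single j]
    · rw [if_pos rfl]
      have := sg_mul e
      have h3 := Real.mul_self_sqrt h1.le
      linear_combination √(1 - u ^ 2) * √(1 - u ^ 2) * this + h3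
    · intro k _ hk
      rw [if_neg hk]; ring
    · intro h; exact absurd (Finset.mem_univ _) h
  · simp only [XX]
    have := sg_mul e
    have h3 := Real.mul_self_sqrt h2.le
    rw [Finset.sum_eq_zero (fun k _ => by ring)]
    linear_combination √(1 - v ^ 2) * √(1 - v ^ 2) * this + h3

theorem isCorrNd_MM (ha : 0 < a) (hb : 0 < b) {u v : ℝ} (hu : 0 < u) (hu1 : u < 1) (hv : 0 < v)
    (hv1 : v < 1) : IsCorrNd (MM a b c u v) where
  psd := gram_psd _
  diag := MM_diag hu hu1 hv hv1
  row := by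
    intro i
    rcases i with i | p | p
    · refine ⟨.inl i, .inr (.inl (⟨0, hb⟩, 0, true)), ?_⟩
      rw [MM_diag hu hu1 hv hv1, MM_01]
      exact hu1.ne'
    · refine ⟨.inr (.inl p), .inl ⟨0, ha⟩, ?_⟩
      rw [MM_diag hu hu1 hv hv1, MM_10]
      exact hu1.ne'
    · refine ⟨.inr (.inr p), .inl ⟨0, ha⟩, ?_⟩
      rw [MM_diag hu hu1 hv hv1, MM_20]
      intro h; linarith

theorem continuous_XX (i : Idx a b c) (x : Co) :
    Continuous (fun z : ℝ × ℝ => XX a b c z.1 √(1 - z.1 ^ 2) z.2 √(1 - z.2 ^ 2) i x) := by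
  rcases i with i | ⟨i, j, e⟩ | ⟨i, e⟩
  · rcases x with _ | _ | x <;> simp only [XX] <;> fun_prop
  · rcases x with _ | _ | x
    · simp only [XX]; fun_prop
    · simp only [XX]; fun_prop
    · by_cases h : x = j
      · simp only [XX, if_pos h]; fun_prop
      · simp only [XX, if_neg h]; fun_prop
  · rcases x with _ | _ | x <;> simp only [XX] <;> fun_prop

theorem continuous_MM : Continuous (fun z : ℝ × ℝ => MM a b c z.1 z.2) := by
  refine continuous_matrix fun i j => ?_
  unfold MM gram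
  exact continuous_finsetSum _ fun x _ => (continuous_XX i x).mul (continuous_XX j x)

/-- The conclusion we want for a matrix: its orbit stays in the admissible set, does not converge,
and has a nontrivial `ω`-limit set. -/
structure NonConv {ι : Type*} [Fintype ι] (A : Matrix ι ι ℝ) : Prop where
  nd : ∀ k : ℕ, IsCorrNd (corr^[k] A)
  noconv : ¬ ∃ L : Matrix ι ι ℝ, Tendsto (fun k : ℕ => corr^[k] A) atTop (𝓝 L)
  omega : {L : Matrix ι ι ℝ | MapClusterPt L atTop (fun k : ℕ => corr^[k] A)}.Nontrivial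

theorem nonConv_of {n : ℕ} {s t : ℝ} (ha : 0 < a) (hb : 0 < b) (hc : 0 < c)
    (hn : a + 14 * b + 2 * c = n) (hs : (b : ℝ) / n = s) (ht : (c : ℝ) / n = t)
    (e : Fin n ≃ Idx a b c) (T : TabOK s t) {z : ℝ × ℝ} (hz : InK z.1 z.2)
    (hno : ∀ L, ¬ Tendsto (fun k => (GG s t)^[k] z) atTop (𝓝 L)) :
    NonConv ((MM a b c z.1 z.2).submatrix e e) := by
  have hcard : Fintype.card (Idx a b c) = n := by rw [card_Idx, hn]
  have hn0 : 0 < n := by omega
  have horb : ∀ k : ℕ, corr^[k] ((MM a b c z.1 z.2).submatrix e e) =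
      (MM a b c ((GG s t)^[k] z).1 ((GG s t)^[k] z).2).submatrix e e := by
    intro k
    induction k with
    | zero => rfl
    | succ k ih =>
      rw [Function.iterate_succ_apply', ih, corr_submatrix, Function.iterate_succ_apply']
      obtain ⟨h1, h2, h3, h4⟩ := (InK.iter T hz k).pos
      have g : Good ((b : ℝ) / Fintype.card (Idx a b c)) ((c : ℝ) / Fintype.card (Idx a b c)) := by
        rw [hcard, hs, ht]; exact T.good
      rw [corr_MM g (by rw [hcard]; exact_mod_cast hn0) h1 h2 h3 h4, hcard, hs, ht]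
      rfl
  have hnd : ∀ k : ℕ, IsCorrNd (corr^[k] ((MM a b c z.1 z.2).submatrix e e)) := by
    intro k
    rw [horb]
    obtain ⟨h1, h2, h3, h4⟩ := (InK.iter T hz k).pos
    exact (isCorrNd_MM ha hb h1 h2 h3 h4).submatrix e
  have hnc : ∀ L, ¬ Tendsto (fun k : ℕ => corr^[k] ((MM a b c z.1 z.2).submatrix e e)) atTop
      (𝓝 L) := by
    intro L hL
    set i0 := e.symm (.inl ⟨0, ha⟩)
    set j1 := e.symm (.inr (.inl (⟨0, hb⟩, 0, true)))
    set j2 := e.symm (.inr (.inr (⟨0, hc⟩, true)))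
    have h1 : Tendsto (fun k : ℕ => ((GG s t)^[k] z).1) atTop (𝓝 (L i0 j1)) := by
      have := (continuous_apply_apply i0 j1).continuousAt.tendsto.comp hL
      refine this.congr fun k => ?_
      show (corr^[k] ((MM a b c z.1 z.2).submatrix e e)) i0 j1 = _
      rw [horb, Matrix.submatrix_apply, Equiv.apply_symm_apply, Equiv.apply_symm_apply, MM_01]
    have h2 : Tendsto (fun k : ℕ => ((GG s t)^[k] z).2) atTop (𝓝 (-L i0 j2)) := by
      have := ((continuous_apply_apply i0 j2).continuousAt.tendsto.comp hL).neg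
      refine this.congr fun k => ?_
      show -(corr^[k] ((MM a b c z.1 z.2).submatrix e e)) i0 j2 = _
      rw [horb, Matrix.submatrix_apply, Equiv.apply_symm_apply, Equiv.apply_symm_apply, MM_02,
        neg_neg]
    exact hno _ (h1.prodMk_nhds h2)
  refine ⟨hnd, fun ⟨L, hL⟩ => hnc L hL, ?_⟩
  -- compactness
  have hK : IsCompact ((fun z : ℝ × ℝ => (MM a b c z.1 z.2).submatrix e e) '' Box) := by
    apply (isCompact_Icc.prod isCompact_Icc : IsCompact Box).image
    exact continuous_MM.matrix_submatrix e e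
  have hmem : ∀ k : ℕ, corr^[k] ((MM a b c z.1 z.2).submatrix e e) ∈
      ((fun z : ℝ × ℝ => (MM a b c z.1 z.2).submatrix e e) '' Box) := by
    intro k
    rw [horb]
    exact ⟨_, (InK.iter T hz k).box, rfl⟩
  by_contra hcon
  rw [Set.not_nontrivial_iff] at hcon
  obtain ⟨L, -, hL⟩ := hK.exists_mapClusterPt_of_frequently
    (f := fun k : ℕ => corr^[k] ((MM a b c z.1 z.2).submatrix e e)) (l := atTop)
    (Eventually.of_forall hmem).frequently
  apply hnc L
  refine hK.tendsto_nhds_of_unique_mapClusterPt (Eventually.of_forall hmem) ?_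
  intro L' _ hL'
  exact hcon hL' hL

/-- For the central parameter. -/
theorem nonConv_578 : ∃ A : Matrix (Fin 578) (Fin 578) ℝ, NonConv A := by
  have h := ev_noconv.self_of_nhds
  have h' := ev_notfix.self_of_nhds
  obtain ⟨T, hT⟩ := h
  have e : Fin 578 ≃ Idx 104 30 27 := (Fintype.equivFinOfCardEq (by rw [card_Idx])).symm
  exact ⟨_, nonConv_of (a := 104) (b := 30) (c := 27) (n := 578) (s := s0) (t := t0)
    (by norm_num) (by norm_num) (by norm_num) (by norm_num) (by norm_num [s0])
    (by norm_num [t0]) e T inK_base (hT _ inK_base h')⟩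

theorem nonConv_large : ∃ N : ℕ, ∀ n ≥ N, ∃ A : Matrix (Fin n) (Fin n) ℝ, NonConv A := by
  have hs : Tendsto (fun n : ℕ => ((⌊s0 * (n : ℝ)⌋₊ : ℝ) / n)) atTop (𝓝 s0) :=
    (tendsto_nat_floor_mul_div_atTop good0.hs.le).comp tendsto_natCast_atTop_atTop
  have ht : Tendsto (fun n : ℕ => ((⌊t0 * (n : ℝ)⌋₊ : ℝ) / n)) atTop (𝓝 t0) :=
    (tendsto_nat_floor_mul_div_atTop good0.ht.le).comp tendsto_natCast_atTop_atTop
  have hst := hs.prodMk_nhds ht
  have h1 := hst.eventually (ev_noconv.and ev_notfix)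
  obtain ⟨N, hN⟩ := eventually_atTop.1 (h1.and (eventually_gt_atTop 0))
  refine ⟨N, fun n hn => ?_⟩
  obtain ⟨⟨⟨T, hT⟩, h'⟩, hn0⟩ := hN n hn
  simp only at T hT h'
  have g := T.good
  have hnr : (0 : ℝ) < n := by exact_mod_cast hn0
  generalize ⌊s0 * (n : ℝ)⌋₊ = b at *
  generalize ⌊t0 * (n : ℝ)⌋₊ = c at *
  have hb : 0 < b := by
    have := g.hs
    rw [div_pos_iff_of_pos_right hnr] at this
    exact_mod_cast this
  have hc : 0 < c := by
    have := g.ht
    rw [div_pos_iff_of_pos_right hnr] at this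
    exact_mod_cast this
  have hlt : 14 * b + 2 * c < n := by
    have h2 := g.hp
    have h3 : (1 - 14 * ((b : ℝ) / n) - 2 * ((c : ℝ) / n)) * n = n - 14 * b - 2 * c := by
      field_simp
    have h4 := mul_pos h2 hnr
    rw [h3] at h4
    have : (14 * b + 2 * c : ℝ) < n := by linarith
    exact_mod_cast this
  obtain ⟨a, ha⟩ := Nat.exists_eq_add_of_lt hlt
  have hn' : (a + 1) + 14 * b + 2 * c = n := by omega
  have e : Fin n ≃ Idx (a + 1) b c := (Fintype.equivFinOfCardEq (by rw [card_Idx, hn'])).symm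
  exact ⟨_, nonConv_of (by omega) hb hc hn' rfl rfl e T inK_base (hT _ inK_base h')⟩

end

end Pool.Agent.H64.IC
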