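import Pool.Agent.H64.IC.Trap

/-!
# Fixed points of the planar map in the box
-/

namespace Pool.Agent.H64.IC

open Filter Topology

noncomputable section

section
variable {s t : ℝ} (g : Good s t)
include g

theorem fix_U {u v : ℝ} (hu : 0 < u) (hu1 : u < 1) (hv : 0 ≤ v) (h : UU s t u v = u) :
    VV s t u v = 2 * s * (1 - u ^ 2) := by
  have hV := VV_pos g hu1 hv
  have hs : 0 < 2 * s := by linarith [g.hs]
  have h1 := one_sub_sq_pos hu.le hu1
  have hA : 0 ≤ AA s t u v := mul_nonneg (aa_nonneg _) hV.le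
  have h2 := phi_sq hs hA
  have h3 : phi (2 * s) (AA s t u v) = u := h
  rw [h3, eq_div_iff (by positivity)] at h2
  have h4 : AA s t u v * (1 - u ^ 2) = u ^ 2 * (2 * s) := by linarith
  unfold AA aa at h4
  field_simp at h4
  nlinarith

theorem fix_Y {u v : ℝ} (hu1 : u < 1) (hv : 0 < v) (hv1 : v < 1) (h : YY s t u v = v) :
    VV s t u v = 2 * t * (1 - v ^ 2) := by
  have hV := VV_pos g hu1 hv.le
  have ht : 0 < 2 * t := by linarith [g.ht]
  have h1 := one_sub_sq_pos hv.le hv1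
  have hB : 0 ≤ BB s t u v := mul_nonneg (aa_nonneg _) hV.le
  have h2 := phi_sq ht hB
  have h3 : phi (2 * t) (BB s t u v) = v := h
  rw [h3, eq_div_iff (by positivity)] at h2
  have h4 : BB s t u v * (1 - v ^ 2) = v ^ 2 * (2 * t) := by linarith
  unfold BB aa at h4
  field_simp at h4
  nlinarith

end

/-- the closed box containing the trapping region -/
def Box : Set (ℝ × ℝ) := Set.Icc (1416 / 6250 : ℝ) (3179 / 6250) ×ˢ Set.Icc (0 : ℝ) (1015 / 6250)

theorem fix0 {u v : ℝ} (h : (u, v) ∈ Box) (h1 : UU s0 t0 u v = u) (h2 : YY s0 t0 u v = v) :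
    (u = 1 / 3 ∧ v = 1 / 9) ∨ 2 * t0 < VV s0 t0 u v := by
  obtain ⟨⟨a1, a2⟩, ⟨b1, b2⟩⟩ := h
  simp only at a1 a2 b1 b2
  have hu0 : 0 < u := lt_of_lt_of_le (by norm_num) a1
  have hu1 : u < 1 := lt_of_le_of_lt a2 (by norm_num)
  have hv1 : v < 1 := lt_of_le_of_lt b2 (by norm_num)
  have e1 := fix_U good0 hu0 hu1 b1 h1
  have e0 := VV0 u v
  have es : 83521 * (2 * s0) = 8670 := by norm_num [s0]
  have et : 83521 * (2 * t0) = 7803 := by norm_num [t0]
  have e1' : 83521 * VV s0 t0 u v = 8670 * (1 - u ^ 2) := by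
    rw [e1, ← es]; ring
  rcases b1.eq_or_lt with hv | hv
  · right
    subst hv
    have q : 25260 * u ^ 2 - 21840 * u + 3654 = 0 := by nlinarith
    have hu24 : u < 0.24 := by
      by_contra hcon
      push Not at hcon
      have h5 : u ≤ 0.5088 := a2.trans (by norm_num)
      nlinarith [mul_nonneg (sub_nonneg.2 hcon) (sub_nonneg.2 h5)]
    have : 83521 * (2 * t0) < 83521 * VV s0 t0 u 0 := by
      rw [et, e1']
      nlinarith
    linarith
  · left
    have e2 := fix_Y good0 hu1 hv hv1 h2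
    have e2' : 83521 * VV s0 t0 u v = 7803 * (1 - v ^ 2) := by
      rw [e2, ← et]; ring
    have q1 : 9 * ((v - 1 / 9) * (v + 1 / 9)) = 10 * ((u - 1 / 3) * (u + 1 / 3)) := by
      nlinarith
    have q2 : 3654 - 21840 * u + 2808 * v + 25260 * u ^ 2 + 7074 * v ^ 2 + 11340 * (u * v) = 0 := by
      nlinarith
    have q3 : (u - 1 / 3) * ((v + 1 / 9) * (-21840 + 33120 * (u + 1 / 3) + 11340 * v) +
        7320 * (u + 1 / 3)) = 0 := by
      linear_combination (v + 1 / 9) * q2 - (6588 / 9 + 786 * (v + 1 / 9)) * q1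
    have q4 : 0 < (v + 1 / 9) * (-21840 + 33120 * (u + 1 / 3) + 11340 * v) +
        7320 * (u + 1 / 3) := by
      have c1 : 0.559 ≤ u + 1 / 3 := by norm_num at a1 ⊢; linarith
      have c2 : v + 1 / 9 ≤ 0.2736 := by norm_num at b2 ⊢; linarith
      have c3 : 0 < v + 1 / 9 := by positivity
      nlinarith [mul_nonneg c3.le (sub_nonneg.2 c1), mul_nonneg c3.le hv.le]
    have q5 : u - 1 / 3 = 0 := by
      rcases mul_eq_zero.1 q3 with h | h
      · exact h
      · exact absurd h q4.ne'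
    have q6 : (v - 1 / 9) * (v + 1 / 9) = 0 := by rw [q5] at q1; linarith
    have q7 : v - 1 / 9 = 0 := by
      rcases mul_eq_zero.1 q6 with h | h
      · exact h
      · have : 0 < v + 1 / 9 := by positivity
        exact absurd h this.ne'
    exact ⟨by linarith, by linarith⟩

/-- For parameters near the central one, all fixed points of the planar map in the box are close
to `(1/3, 1/9)` or have `V > 2 t`. -/
theorem ev_fix {N : Set (ℝ × ℝ)} (hN : N ∈ 𝓝 ((1 / 3 : ℝ), (1 / 9 : ℝ))) :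
    ∀ᶠ p : ℝ × ℝ in 𝓝 (s0, t0), ∀ z ∈ Box,
      (UU p.1 p.2 z.1 z.2 = z.1 → YY p.1 p.2 z.1 z.2 = z.2 →
        z ∈ N ∨ 2 * p.2 < VV p.1 p.2 z.1 z.2) := by
  apply IsCompact.eventually_forall_of_forall_eventually (isCompact_Icc.prod isCompact_Icc)
  rintro ⟨u, v⟩ hz
  have hz' := hz
  obtain ⟨⟨a1, a2⟩, ⟨b1, b2⟩⟩ := hz'
  simp only at a1 a2 b1 b2
  have hu0 : 0 < u := lt_of_lt_of_le (by norm_num) a1
  have hu1 : u < 1 := lt_of_le_of_lt a2 (by norm_num)
  have hv1 : v < 1 := lt_of_le_of_lt b2 (by norm_num)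
  have cU := contAt_UU good0 hu0.le hu1 b1
  have cY := contAt_YY good0 hu1 b1 hv1
  by_cases h1 : UU s0 t0 u v = u
  · by_cases h2 : YY s0 t0 u v = v
    · rcases fix0 hz h1 h2 with ⟨rfl, rfl⟩ | h
      · have : ∀ᶠ q : Par in 𝓝 ((s0, t0), ((1 / 3 : ℝ), (1 / 9 : ℝ))), q.2 ∈ N :=
          continuous_snd.continuousAt.eventually hN
        filter_upwards [this] with q hq _ _
        exact Or.inl hq
      · have : ∀ᶠ q : Par in 𝓝 ((s0, t0), (u, v)),
            0 < VV q.1.1 q.1.2 q.2.1 q.2.2 - 2 * q.1.2 :=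
          (contVV.continuousAt.sub (by fun_prop)).eventually_const_lt
            (show 0 < VV s0 t0 u v - 2 * t0 by linarith)
        filter_upwards [this] with q hq _ _
        exact Or.inr (by linarith)
    · have : ∀ᶠ q : Par in 𝓝 ((s0, t0), (u, v)), YY q.1.1 q.1.2 q.2.1 q.2.2 - q.2.2 ≠ 0 :=
        (cY.sub (by fun_prop)).eventually_ne (sub_ne_zero.2 h2)
      filter_upwards [this] with q hq _ h
      exact absurd (sub_eq_zero.2 h) hq
  · have : ∀ᶠ q : Par in 𝓝 ((s0, t0), (u, v)), UU q.1.1 q.1.2 q.2.1 q.2.2 - q.2.1 ≠ 0 :=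
      (cU.sub (by fun_prop)).eventually_ne (sub_ne_zero.2 h1)
    filter_upwards [this] with q hq h _
    exact absurd (sub_eq_zero.2 h) hq

end

end Pool.Agent.H64.IC
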