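import Pool.Agent.H64.IC.Trap

/-!
# The fixed point `(1/3, 1/9)` is a source
-/

namespace Pool.Agent.H64.IC

open Filter Topology

noncomputable section

/-- the planar map with its parameters -/
def Phi (q : Par) : ℝ × ℝ := (UU q.1.1 q.1.2 q.2.1 q.2.2, YY q.1.1 q.1.2 q.2.1 q.2.2)

/-- the central point -/
def pt0 : Par := ((s0, t0), ((1 / 3 : ℝ), (1 / 9 : ℝ)))

theorem VVstar : VV s0 t0 (1 / 3) (1 / 9) = 80 / 867 := by
  norm_num [VV, s0, t0]

theorem AAstar : AA s0 t0 (1 / 3) (1 / 9) = 15 / 1156 := by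
  rw [AA, VVstar]; norm_num [aa]

theorem BBstar : BB s0 t0 (1 / 3) (1 / 9) = 27 / 23120 := by
  rw [BB, VVstar]; norm_num [aa]

theorem contDiff_Phi : ContDiffAt ℝ 1 Phi pt0 := by
  have cV : ContDiffAt ℝ 1 (fun q : Par => VV q.1.1 q.1.2 q.2.1 q.2.2) pt0 := by
    unfold VV; fun_prop
  have cA : ContDiffAt ℝ 1 (fun q : Par => AA q.1.1 q.1.2 q.2.1 q.2.2) pt0 := by
    unfold AA aa
    apply ContDiffAt.mul _ cV
    exact ContDiffAt.div (by fun_prop) (by fun_prop) (by norm_num [pt0])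
  have cB : ContDiffAt ℝ 1 (fun q : Par => BB q.1.1 q.1.2 q.2.1 q.2.2) pt0 := by
    unfold BB aa
    apply ContDiffAt.mul _ cV
    exact ContDiffAt.div (by fun_prop) (by fun_prop) (by norm_num [pt0])
  have cU : ContDiffAt ℝ 1 (fun q : Par => UU q.1.1 q.1.2 q.2.1 q.2.2) pt0 := by
    unfold UU phi
    apply ContDiffAt.sqrt
    · apply ContDiffAt.div cA (cA.add (by fun_prop))
      show AA s0 t0 (1 / 3) (1 / 9) + 2 * s0 ≠ 0
      rw [AAstar]; norm_num [s0]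
    · show AA s0 t0 (1 / 3) (1 / 9) / (AA s0 t0 (1 / 3) (1 / 9) + 2 * s0) ≠ 0
      rw [AAstar]; norm_num [s0]
  have cY : ContDiffAt ℝ 1 (fun q : Par => YY q.1.1 q.1.2 q.2.1 q.2.2) pt0 := by
    unfold YY phi
    apply ContDiffAt.sqrt
    · apply ContDiffAt.div cB (cB.add (by fun_prop))
      show BB s0 t0 (1 / 3) (1 / 9) + 2 * t0 ≠ 0
      rw [BBstar]; norm_num [t0]
    · show BB s0 t0 (1 / 3) (1 / 9) / (BB s0 t0 (1 / 3) (1 / 9) + 2 * t0) ≠ 0
      rw [BBstar]; norm_num [t0]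
  exact cU.prodMk cY

theorem strict_Phi : HasStrictFDerivAt Phi (fderiv ℝ Phi pt0) pt0 :=
  contDiff_Phi.hasStrictFDerivAt (by norm_num)

/-! ### the partial derivatives -/

theorem der_aa {x : ℝ} (hx : 1 - x ^ 2 ≠ 0) :
    HasDerivAt aa (2 * x * (1 + x ^ 2) / (1 - x ^ 2) ^ 3) x := by
  have h1 : HasDerivAt (fun y : ℝ => y ^ 2) (2 * x) x := by
    simpa using hasDerivAt_pow 2 x
  have h2 : HasDerivAt (fun y : ℝ => 1 - y ^ 2) (-(2 * x)) x := by
    simpa using h1.const_sub 1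
  have h3' : HasDerivAt (fun y : ℝ => (1 - y ^ 2) ^ 2) _ x := h2.pow 2
  have h3 : HasDerivAt (fun y : ℝ => (1 - y ^ 2) ^ 2) (2 * (1 - x ^ 2) * (-(2 * x))) x :=
    h3'.congr_deriv (by norm_num)
  have h4 : HasDerivAt aa _ x := h1.div h3 (pow_ne_zero 2 hx)
  refine h4.congr_deriv ?_
  field_simp
  ring

theorem der_phi {c x r : ℝ} (hc : 0 < c) (hx : 0 < x) (hr : phi c x = r) :
    HasDerivAt (phi c) (c / (x + c) ^ 2 / (2 * r)) x := by
  have h1 : HasDerivAt (fun y : ℝ => y / (y + c)) ((1 * (x + c) - x * 1) / (x + c) ^ 2) x :=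
    (hasDerivAt_id x).div ((hasDerivAt_id x).add_const c) (by positivity)
  have h2 := h1.sqrt (show x / (x + c) ≠ 0 by positivity)
  have h3 : √(x / (x + c)) = r := hr
  rw [h3] at h2
  have h4 : HasDerivAt (phi c) _ x := h2
  refine h4.congr_deriv ?_
  ring

theorem der_VVu (v x : ℝ) : HasDerivAt (fun x => VV s0 t0 x v)
    ((-21840 + 33180 * x + 11340 * v) / 83521) x := by
  have h : (fun x => VV s0 t0 x v) = fun x =>
      (12324 + 2808 * v + 7074 * v ^ 2) / 83521 + (-21840 + 11340 * v) / 83521 * x +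
        16590 / 83521 * x ^ 2 := by
    funext x
    have := VV0 x v
    linarith
  rw [h]
  have h1 : HasDerivAt (fun y : ℝ => y ^ 2) (2 * x) x := by simpa using hasDerivAt_pow 2 x
  have h0 : HasDerivAt (fun y : ℝ => y) 1 x := hasDerivAt_id x
  have h2 : HasDerivAt (fun x => (12324 + 2808 * v + 7074 * v ^ 2) / 83521 +
      (-21840 + 11340 * v) / 83521 * x + 16590 / 83521 * x ^ 2) _ x :=
    ((h0.const_mul ((-21840 + 11340 * v) / 83521)).const_add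
      ((12324 + 2808 * v + 7074 * v ^ 2) / 83521)).add (h1.const_mul (16590 / 83521))
  refine h2.congr_deriv ?_
  ring

theorem der_VVv (u x : ℝ) : HasDerivAt (fun x => VV s0 t0 u x)
    ((2808 + 14148 * x + 11340 * u) / 83521) x := by
  have h : (fun x => VV s0 t0 u x) = fun x =>
      (12324 - 21840 * u + 16590 * u ^ 2) / 83521 + (2808 + 11340 * u) / 83521 * x +
        7074 / 83521 * x ^ 2 := by
    funext x
    have := VV0 u x
    linarith
  rw [h]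
  have h1 : HasDerivAt (fun y : ℝ => y ^ 2) (2 * x) x := by simpa using hasDerivAt_pow 2 x
  have h0 : HasDerivAt (fun y : ℝ => y) 1 x := hasDerivAt_id x
  have h2 : HasDerivAt (fun x => (12324 - 21840 * u + 16590 * u ^ 2) / 83521 +
      (2808 + 11340 * u) / 83521 * x + 7074 / 83521 * x ^ 2) _ x :=
    ((h0.const_mul ((2808 + 11340 * u) / 83521)).const_add
      ((12324 - 21840 * u + 16590 * u ^ 2) / 83521)).add (h1.const_mul (7074 / 83521))
  refine h2.congr_deriv ?_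
  ring

theorem Ustar : UU s0 t0 (1 / 3) (1 / 9) = 1 / 3 := by
  rw [UU, AAstar, phi, Real.sqrt_eq_iff_mul_self_eq (by norm_num [s0]) (by norm_num)]
  norm_num [s0]

theorem Ystar : YY s0 t0 (1 / 3) (1 / 9) = 1 / 9 := by
  rw [YY, BBstar, phi, Real.sqrt_eq_iff_mul_self_eq (by norm_num [t0]) (by norm_num)]
  norm_num [t0]

theorem der_phiU : HasDerivAt (phi (2 * s0)) (4624 / 405) (AA s0 t0 (1 / 3) (1 / 9)) := by
  have h := der_phi (c := 2 * s0) (x := AA s0 t0 (1 / 3) (1 / 9)) (r := 1 / 3)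
    (by norm_num [s0]) (by rw [AAstar]; norm_num) Ustar
  refine h.congr_deriv ?_
  rw [AAstar]; norm_num [s0]

theorem der_phiY : HasDerivAt (phi (2 * t0)) (924800 / 19683) (BB s0 t0 (1 / 3) (1 / 9)) := by
  have h := der_phi (c := 2 * t0) (x := BB s0 t0 (1 / 3) (1 / 9)) (r := 1 / 9)
    (by norm_num [t0]) (by rw [BBstar]; norm_num) Ystar
  refine h.congr_deriv ?_
  rw [BBstar]; norm_num [t0]

theorem dUu : HasDerivAt (fun x => UU s0 t0 x (1 / 9)) (142 / 153) (1 / 3) := by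
  have h1 : HasDerivAt (fun x => AA s0 t0 x (1 / 9)) _ (1 / 3) :=
    (der_aa (x := 1 / 3) (by norm_num)).mul (der_VVu (1 / 9) (1 / 3))
  have h2 : HasDerivAt (fun x => UU s0 t0 x (1 / 9)) _ (1 / 3) :=
    HasDerivAt.comp (1 / 3 : ℝ) (h₂ := phi (2 * s0))
    (h := fun x => AA s0 t0 x (1 / 9)) der_phiU h1
  refine h2.congr_deriv ?_
  rw [VVstar]; norm_num [aa]

theorem dUv : HasDerivAt (fun x => UU s0 t0 (1 / 3) x) (8 / 51) (1 / 9) := by
  have h1 : HasDerivAt (fun x => AA s0 t0 (1 / 3) x) _ (1 / 9) :=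
    (der_VVv (1 / 3) (1 / 9)).const_mul (aa (1 / 3))
  have h2 : HasDerivAt (fun x => UU s0 t0 (1 / 3) x) _ (1 / 9) :=
    HasDerivAt.comp (1 / 9 : ℝ) (h₂ := phi (2 * s0))
    (h := fun x => AA s0 t0 (1 / 3) x) der_phiU h1
  refine h2.congr_deriv ?_
  norm_num [aa]

theorem dYu : HasDerivAt (fun x => YY s0 t0 x (1 / 9)) (-280 / 4131) (1 / 3) := by
  have h1 : HasDerivAt (fun x => BB s0 t0 x (1 / 9)) _ (1 / 3) :=
    (der_VVu (1 / 9) (1 / 3)).const_mul (aa (1 / 9))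
  have h2 : HasDerivAt (fun x => YY s0 t0 x (1 / 9)) _ (1 / 3) :=
    HasDerivAt.comp (1 / 3 : ℝ) (h₂ := phi (2 * t0))
    (h := fun x => BB s0 t0 x (1 / 9)) der_phiY h1
  refine h2.congr_deriv ?_
  norm_num [aa]

theorem dYv : HasDerivAt (fun x => YY s0 t0 (1 / 3) x) (1474 / 1377) (1 / 9) := by
  have h1 : HasDerivAt (fun x => BB s0 t0 (1 / 3) x) _ (1 / 9) :=
    (der_aa (x := 1 / 9) (by norm_num)).mul (der_VVv (1 / 3) (1 / 9))
  have h2 : HasDerivAt (fun x => YY s0 t0 (1 / 3) x) _ (1 / 9) :=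
    HasDerivAt.comp (1 / 9 : ℝ) (h₂ := phi (2 * t0))
    (h := fun x => BB s0 t0 (1 / 3) x) der_phiY h1
  refine h2.congr_deriv ?_
  rw [VVstar]; norm_num [aa]

theorem fderiv_u : fderiv ℝ Phi pt0 (0, (1, 0)) = (142 / 153, -280 / 4131) := by
  have hγ : HasDerivAt (fun x : ℝ => ((((s0, t0) : ℝ × ℝ), (x, (1 / 9 : ℝ))) : Par))
      (0, (1, 0)) (1 / 3) :=
    (hasDerivAt_const _ _).prodMk ((hasDerivAt_id _).prodMk (hasDerivAt_const _ _))
  have h1 : HasDerivAt (fun x : ℝ => Phi ((s0, t0), (x, (1 / 9 : ℝ))))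
      (fderiv ℝ Phi pt0 (0, (1, 0))) (1 / 3) :=
    HasFDerivAt.comp_hasDerivAt (l := Phi) (l' := fderiv ℝ Phi pt0)
      (f := fun x : ℝ => ((((s0, t0) : ℝ × ℝ), (x, (1 / 9 : ℝ))) : Par)) (1 / 3 : ℝ)
      strict_Phi.hasFDerivAt hγ
  exact h1.unique (dUu.prodMk dYu)

theorem fderiv_v : fderiv ℝ Phi pt0 (0, (0, 1)) = (8 / 51, 1474 / 1377) := by
  have hγ : HasDerivAt (fun x : ℝ => ((((s0, t0) : ℝ × ℝ), ((1 / 3 : ℝ), x)) : Par))
      (0, (0, 1)) (1 / 9) :=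
    (hasDerivAt_const _ _).prodMk ((hasDerivAt_const _ _).prodMk (hasDerivAt_id _))
  have h1 : HasDerivAt (fun x : ℝ => Phi ((s0, t0), ((1 / 3 : ℝ), x)))
      (fderiv ℝ Phi pt0 (0, (0, 1))) (1 / 9) :=
    HasFDerivAt.comp_hasDerivAt (l := Phi) (l' := fderiv ℝ Phi pt0)
      (f := fun x : ℝ => ((((s0, t0) : ℝ × ℝ), ((1 / 3 : ℝ), x)) : Par)) (1 / 9 : ℝ)
      strict_Phi.hasFDerivAt hγ
  exact h1.unique (dUv.prodMk dYv)

theorem fderiv_apply (x y : ℝ) : fderiv ℝ Phi pt0 (0, (x, y)) =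
    (142 / 153 * x + 8 / 51 * y, -280 / 4131 * x + 1474 / 1377 * y) := by
  have : ((0, (x, y)) : Par) = x • ((0, (1, 0)) : Par) + y • ((0, (0, 1)) : Par) := by
    ext <;> simp
  rw [this, map_add, map_smul, map_smul, fderiv_u, fderiv_v]
  ext <;> simp <;> ring

/-! ### expansion -/

/-- the quadratic form adapted to the fixed point -/
def qf (z : ℝ × ℝ) : ℝ := 70 * z.1 ^ 2 - 147 * (z.1 * z.2) + 162 * z.2 ^ 2

theorem qf_ge (z : ℝ × ℝ) : 36 * ‖z‖ ^ 2 ≤ qf z := by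
  have h1 : ‖z‖ = max |z.1| |z.2| := rfl
  rcases le_total |z.1| |z.2| with h | h
  · rw [h1, max_eq_right h, sq_abs]
    unfold qf
    nlinarith [sq_nonneg (70 * z.1 - 147 / 2 * z.2)]
  · rw [h1, max_eq_left h, sq_abs]
    unfold qf
    nlinarith [sq_nonneg (162 * z.2 - 147 / 2 * z.1)]

theorem qf_expand {x y e1 e2 M : ℝ} (hx : |x| ≤ M) (hy : |y| ≤ M)
    (h1 : |e1| ≤ 1e-5 * M) (h2 : |e2| ≤ 1e-5 * M) (hq : 36 * M ^ 2 ≤ qf (x, y)) :
    1.002 * qf (x, y) ≤ qf (142 / 153 * x + 8 / 51 * y + e1,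
      -280 / 4131 * x + 1474 / 1377 * y + e2) := by
  have hM : 0 ≤ M := (abs_nonneg x).trans hx
  have a1 : |142 / 153 * x + 8 / 51 * y| ≤ 1.1 * M := by
    rw [abs_le] at hx hy ⊢
    constructor <;> norm_num <;> linarith
  have a2 : |-280 / 4131 * x + 1474 / 1377 * y| ≤ 1.2 * M := by
    rw [abs_le] at hx hy ⊢
    constructor <;> norm_num <;> linarith
  have key : qf (142 / 153 * x + 8 / 51 * y + e1, -280 / 4131 * x + 1474 / 1377 * y + e2) =
      211548 / 210681 * qf (x, y) + qf (e1, e2) +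
        (e1 * (140 * (142 / 153 * x + 8 / 51 * y) -
          147 * (-280 / 4131 * x + 1474 / 1377 * y)) +
        e2 * (324 * (-280 / 4131 * x + 1474 / 1377 * y) -
          147 * (142 / 153 * x + 8 / 51 * y))) := by
    unfold qf
    ring
  set a := 142 / 153 * x + 8 / 51 * y
  set b := -280 / 4131 * x + 1474 / 1377 * y
  have q0 : 0 ≤ qf (e1, e2) := le_trans (by positivity) (qf_ge _)
  have b1 : |140 * a - 147 * b| ≤ 331 * M := by
    rw [abs_le] at a1 a2 ⊢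
    constructor <;> linarith
  have b2 : |324 * b - 147 * a| ≤ 551 * M := by
    rw [abs_le] at a1 a2 ⊢
    constructor <;> linarith
  have c1 : |e1 * (140 * a - 147 * b)| ≤ 1e-5 * M * (331 * M) := by
    rw [abs_mul]; exact mul_le_mul h1 b1 (abs_nonneg _) (by positivity)
  have c2 : |e2 * (324 * b - 147 * a)| ≤ 1e-5 * M * (551 * M) := by
    rw [abs_mul]; exact mul_le_mul h2 b2 (abs_nonneg _) (by positivity)
  have c1' := (abs_le.1 c1).1
  have c2' := (abs_le.1 c2).1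
  rw [key]
  nlinarith

/-- **Uniform expansion near the fixed point.** -/
theorem ev_expand : ∃ N ∈ 𝓝 ((1 / 3 : ℝ), (1 / 9 : ℝ)), ∀ᶠ p : ℝ × ℝ in 𝓝 (s0, t0),
    ∀ z ∈ N, ∀ z' ∈ N, 1.002 * qf (z - z') ≤ qf (Phi (p, z) - Phi (p, z')) := by
  have h := strict_Phi.isLittleO
  rw [Asymptotics.isLittleO_iff] at h
  have h1 := h (show (0 : ℝ) < 1e-5 by norm_num)
  have hc : ContinuousAt (fun r : (ℝ × ℝ) × ((ℝ × ℝ) × (ℝ × ℝ)) =>
      (((r.1, r.2.1), (r.1, r.2.2)) : Par × Par))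
      ((s0, t0), (((1 / 3 : ℝ), (1 / 9 : ℝ)), ((1 / 3 : ℝ), (1 / 9 : ℝ)))) := by fun_prop
  have h2 := hc.eventually h1
  rw [nhds_prod_eq, eventually_prod_iff] at h2
  obtain ⟨pa, hpa, pb, hpb, hab⟩ := h2
  rw [nhds_prod_eq, eventually_prod_iff] at hpb
  obtain ⟨pc, hpc, pd, hpd, hcd⟩ := hpb
  refine ⟨{z | pc z ∧ pd z}, hpc.and hpd, ?_⟩
  filter_upwards [hpa] with p hp z hz z' hz'
  have h3 := hab hp (hcd hz.1 hz'.2)
  simp only at h3
  have e1 : ((p, z) : Par) - (p, z') = (0, (z.1 - z'.1, z.2 - z'.2)) := by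
    ext <;> simp
  rw [e1, fderiv_apply] at h3
  have e2 : ‖((0, (z.1 - z'.1, z.2 - z'.2)) : Par)‖ = ‖z - z'‖ := by
    rw [Prod.norm_def]
    simp
    rfl
  rw [e2] at h3
  have h4 : |(Phi (p, z) - Phi (p, z')).1 -
      (142 / 153 * (z.1 - z'.1) + 8 / 51 * (z.2 - z'.2))| ≤ 1e-5 * ‖z - z'‖ :=
    (norm_fst_le _).trans h3
  have h5 : |(Phi (p, z) - Phi (p, z')).2 -
      (-280 / 4131 * (z.1 - z'.1) + 1474 / 1377 * (z.2 - z'.2))| ≤ 1e-5 * ‖z - z'‖ :=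
    (norm_snd_le _).trans h3
  have h6 := qf_expand (x := z.1 - z'.1) (y := z.2 - z'.2) (norm_fst_le (z - z'))
    (norm_snd_le (z - z')) h4 h5 (qf_ge (z - z'))
  have e3 : ((z.1 - z'.1, z.2 - z'.2) : ℝ × ℝ) = z - z' := rfl
  rw [e3] at h6
  refine h6.trans (le_of_eq ?_)
  congr 1
  ext <;> simp

end

end Pool.Agent.H64.IC
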