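import Pool.Agent.H64.IC.Fix
import Pool.Agent.H64.IC.Loc

/-!
# Orbits of the planar map do not converge
-/

namespace Pool.Agent.H64.IC

open Filter Topology

noncomputable section

/-- the planar map at the parameter `(s, t)` -/
def GG (s t : ℝ) (z : ℝ × ℝ) : ℝ × ℝ := (UU s t z.1 z.2, YY s t z.1 z.2)

theorem InK.pos {u v : ℝ} (h : InK u v) : 0 < u ∧ u < 1 ∧ 0 < v ∧ v < 1 :=
  ⟨lt_of_lt_of_le (by norm_num) h.u_lo, h.u_hi.trans (by norm_num), h.v_lo,
    lt_of_le_of_lt h.v_hi (by norm_num)⟩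

theorem InK.box {z : ℝ × ℝ} (h : InK z.1 z.2) : z ∈ Box :=
  ⟨⟨h.u_lo, h.u_hi.le⟩, ⟨h.v_lo.le, h.v_hi⟩⟩

theorem InK.iter {s t : ℝ} (T : TabOK s t) {z : ℝ × ℝ} (h : InK z.1 z.2) (k : ℕ) :
    InK ((GG s t)^[k] z).1 ((GG s t)^[k] z).2 := by
  induction k with
  | zero => exact h
  | succ k ih =>
    rw [Function.iterate_succ_apply']
    exact ih.step T

theorem xi782 : xi 782 ≤ 2083 := by decide +kernel

/-- the starting point is in the trapping region -/
theorem inK_base : InK (1 / 3) (1 / 8) where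
  u_lo := by norm_num
  u_hi := by norm_num
  v_lo := by norm_num
  v_hi := by norm_num
  left := by
    intro m hm h
    have h1 : (m : ℝ) < 782 := by
      rw [div_lt_iff₀ (by norm_num)] at h
      norm_num at h
      linarith
    have h2 : m < 782 := by exact_mod_cast h1
    have h3 : xi (m + 1) ≤ xi 782 := xi_mono (by omega) (by norm_num)
    have h4 : (xi (m + 1) : ℝ) ≤ 2083 := by exact_mod_cast h3.trans xi782
    rw [div_le_iff₀ (by norm_num)]
    linarith
  right := by
    intro a ha _ h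
    have h1 : (2562 : ℝ) ≤ a := by exact_mod_cast ha
    rw [div_le_iff₀ (by norm_num)] at h
    linarith

theorem ev_notfix : ∀ᶠ p : ℝ × ℝ in 𝓝 (s0, t0),
    GG p.1 p.2 ((1 / 3 : ℝ), (1 / 8 : ℝ)) ≠ ((1 / 3 : ℝ), (1 / 8 : ℝ)) := by
  have c := contAt_UU good0 (u := 1 / 3) (v := 1 / 8) (by norm_num) (by norm_num) (by norm_num)
  have c2 : ContinuousAt (fun p : ℝ × ℝ => UU p.1 p.2 (1 / 3) (1 / 8)) (s0, t0) :=
    ContinuousAt.comp (f := fun p : ℝ × ℝ => ((p, ((1 / 3 : ℝ), (1 / 8 : ℝ))) : Par))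
      (x := (s0, t0)) c (by fun_prop)
  have h : UU s0 t0 (1 / 3) (1 / 8) ≠ 1 / 3 := by
    intro h
    have h1 := fix_U good0 (by norm_num) (by norm_num) (by norm_num) h
    have h2 := VV0 (1 / 3) (1 / 8)
    rw [h1] at h2
    norm_num [s0] at h2
  filter_upwards [c2.eventually_ne h] with p hp h3
  exact hp (congrArg Prod.fst h3)

theorem lt_YY_self {s t u v : ℝ} (g : Good s t) (hu1 : u < 1) (hv : 0 < v)
    (hv1 : v < 1) (h : 2 * t < VV s t u v) : v < YY s t u v := by
  have hV := VV_pos g hu1 hv.le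
  have h1 := one_sub_sq_pos hv.le hv1
  have ht := g.ht
  unfold YY
  rw [lt_phi (by linarith) (show 0 ≤ BB s t u v from mul_nonneg (aa_nonneg _) hV.le) hv.le]
  have e : BB s t u v - v ^ 2 * (BB s t u v + 2 * t) =
      v ^ 2 * (VV s t u v - 2 * t * (1 - v ^ 2)) / (1 - v ^ 2) := by
    unfold BB aa
    field_simp
    ring
  have h2 : 0 < v ^ 2 * (VV s t u v - 2 * t * (1 - v ^ 2)) / (1 - v ^ 2) := by
    apply div_pos _ h1
    apply mul_pos (by positivity)
    nlinarith [mul_pos ht (show 0 < v ^ 2 by positivity)]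
  linarith

theorem qf_zero {z : ℝ × ℝ} (h : qf z ≤ 0) : z = 0 := by
  have h1 := qf_ge z
  have h2 : ‖z‖ ^ 2 ≤ 0 := by linarith
  have h3 : ‖z‖ = 0 := by
    have := sq_nonneg ‖z‖
    exact pow_eq_zero_iff (two_ne_zero) |>.1 (le_antisymm h2 this)
  exact norm_eq_zero.1 h3

/-- **No orbit of a non-fixed point of the trapping region converges**, for all parameters close to
the central one. -/
theorem ev_noconv : ∀ᶠ p : ℝ × ℝ in 𝓝 (s0, t0), TabOK p.1 p.2 ∧
    ∀ z : ℝ × ℝ, InK z.1 z.2 → GG p.1 p.2 z ≠ z → ∀ L : ℝ × ℝ,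
      ¬ Tendsto (fun k => (GG p.1 p.2)^[k] z) atTop (𝓝 L) := by
  obtain ⟨N, hN, hexp⟩ := ev_expand
  have hN' : interior N ∈ 𝓝 ((1 / 3 : ℝ), (1 / 9 : ℝ)) := interior_mem_nhds.2 hN
  filter_upwards [ev_tabOK, hexp, ev_fix hN'] with p hT hE hF
  refine ⟨hT, fun z hz hne L hL => ?_⟩
  have g := hT.good
  set s := p.1
  set t := p.2
  set w : ℕ → ℝ × ℝ := fun k => (GG s t)^[k] z with hw
  have hK : ∀ k, InK (w k).1 (w k).2 := fun k => InK.iter hT hz k
  have hstep : ∀ k, w (k + 1) = GG s t (w k) := fun k => Function.iterate_succ_apply' _ _ _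
  -- the limit is in the box
  have hLB : L ∈ Box := by
    have hc : IsClosed Box := isClosed_Icc.prod isClosed_Icc
    exact hc.mem_of_tendsto hL (Eventually.of_forall fun k => (hK k).box)
  have hLB' := hLB
  obtain ⟨⟨a1, a2⟩, ⟨b1, b2⟩⟩ := hLB'
  have hu0 : 0 < L.1 := lt_of_lt_of_le (by norm_num) a1
  have hu1 : L.1 < 1 := lt_of_le_of_lt a2 (by norm_num)
  have hv1 : L.2 < 1 := lt_of_le_of_lt b2 (by norm_num)
  -- and it is a fixed point
  have hcont : ContinuousAt (GG s t) L := by
    have cU := contAt_UU g hu0.le hu1 b1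
    have cY := contAt_YY g hu1 b1 hv1
    have c1 : ContinuousAt (fun z : ℝ × ℝ => UU s t z.1 z.2) L :=
      ContinuousAt.comp (f := fun z : ℝ × ℝ => (((s, t), z) : Par)) (x := L) cU (by fun_prop)
    have c2 : ContinuousAt (fun z : ℝ × ℝ => YY s t z.1 z.2) L :=
      ContinuousAt.comp (f := fun z : ℝ × ℝ => (((s, t), z) : Par)) (x := L) cY (by fun_prop)
    exact c1.prodMk c2
  have hfix : GG s t L = L := by
    have h1 : Tendsto (fun k => w (k + 1)) atTop (𝓝 L) := (tendsto_add_atTop_iff_nat 1).2 hL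
    have h2 : Tendsto (fun k => GG s t (w k)) atTop (𝓝 (GG s t L)) := hcont.tendsto.comp hL
    have h3 : (fun k => w (k + 1)) = fun k => GG s t (w k) := funext hstep
    rw [h3] at h1
    exact tendsto_nhds_unique h2 h1
  rcases hF L hLB (congrArg Prod.fst hfix) (congrArg Prod.snd hfix) with hLN | hLV
  · -- the limit is near the source
    have h1 : ∀ᶠ k in atTop, w k ∈ interior N := hL.eventually (isOpen_interior.mem_nhds hLN)
    obtain ⟨k0, hk0⟩ := eventually_atTop.1 h1
    have h2 : ∀ k, k0 ≤ k → qf (w k - L) ≤ qf (w (k + 1) - L) := by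
      intro k hk
      have h3 := hE (w k) (interior_subset (hk0 k hk)) L (interior_subset hLN)
      have h4 : Phi (p, w k) = w (k + 1) := (hstep k).symm
      have h5 : Phi (p, L) = L := hfix
      rw [h4, h5] at h3
      have h6 : 0 ≤ qf (w k - L) := le_trans (by positivity) (qf_ge _)
      linarith
    have h3 : ∀ j, qf (w k0 - L) ≤ qf (w (k0 + j) - L) := by
      intro j
      induction j with
      | zero => exact le_refl _
      | succ j ih => exact ih.trans (h2 (k0 + j) (by omega))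
    have h4 : Tendsto (fun k => qf (w k - L)) atTop (𝓝 0) := by
      have hq : Continuous qf := by unfold qf; fun_prop
      have h5 : Tendsto (fun k => w k - L) atTop (𝓝 (L - L)) := hL.sub_const L
      have h6 := (hq.tendsto (L - L)).comp h5
      have h7 : qf (L - L) = 0 := by simp [qf]
      rw [h7] at h6
      exact h6
    have h5 : qf (w k0 - L) ≤ 0 := by
      apply ge_of_tendsto h4
      filter_upwards [eventually_ge_atTop k0] with k hk
      obtain ⟨j, rfl⟩ := Nat.exists_eq_add_of_le hk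
      exact h3 j
    have h6 : w k0 = L := sub_eq_zero.1 (qf_zero h5)
    have h7 : w (k0 + 1) = w k0 := by rw [hstep, h6, hfix]
    have h8 : ∀ k, w (k + 1) ≠ w k := by
      intro k
      induction k with
      | zero =>
        intro h
        rw [hstep] at h
        exact hne h
      | succ k ih =>
        intro h
        rw [hstep (k + 1), hstep k] at h
        apply ih
        rw [hstep k]
        have p1 := (hK (k + 1)).pos
        have p2 := (hK k).pos
        rw [hstep k] at p1
        have := planar_inj g p1.1 p1.2.1 p1.2.2.1 p1.2.2.2 p2.1 p2.2.1 p2.2.2.1 p2.2.2.2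
          (congrArg Prod.fst h) (congrArg Prod.snd h)
        exact Prod.ext this.1 this.2
    exact h8 k0 h7
  · -- the limit has `V > 2 t`
    have hv0 : L.2 = 0 := by
      by_contra hcon
      have hv : 0 < L.2 := lt_of_le_of_ne b1 (Ne.symm hcon)
      have := fix_Y g hu1 hv hv1 (congrArg Prod.snd hfix)
      have ht := g.ht
      rw [this] at hLV
      nlinarith [mul_pos ht (show 0 < L.2 ^ 2 by positivity)]
    have hc : Continuous (fun z : ℝ × ℝ => VV s t z.1 z.2) := by unfold VV; fun_prop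
    have h1 : ∀ᶠ k in atTop, 2 * t < VV s t (w k).1 (w k).2 :=
      (hc.continuousAt.tendsto.comp hL).eventually_const_lt hLV
    obtain ⟨k0, hk0⟩ := eventually_atTop.1 h1
    have h2 : ∀ k, k0 ≤ k → (w k).2 ≤ (w (k + 1)).2 := by
      intro k hk
      rw [hstep]
      have p1 := (hK k).pos
      exact (lt_YY_self g p1.2.1 p1.2.2.1 p1.2.2.2 (hk0 k hk)).le
    have h3 : ∀ j, (w k0).2 ≤ (w (k0 + j)).2 := by
      intro j
      induction j with
      | zero => exact le_refl _
      | succ j ih => exact ih.trans (h2 (k0 + j) (by omega))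
    have h4 : Tendsto (fun k => (w k).2) atTop (𝓝 L.2) := (continuous_snd.tendsto L).comp hL
    have h5 : (w k0).2 ≤ L.2 := by
      apply ge_of_tendsto h4
      filter_upwards [eventually_ge_atTop k0] with k hk
      obtain ⟨j, rfl⟩ := Nat.exists_eq_add_of_le hk
      exact h3 j
    have h6 := (hK k0).v_lo
    linarith

end

end Pool.Agent.H64.IC
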