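import Pool.Agent.H64.IC.Plane
import Pool.Agent.H64.IC.Tab

/-!
# The trapping region is invariant under the planar map, for all parameters near `(15/289, 27/578)`
-/

namespace Pool.Agent.H64.IC

open Filter Topology

noncomputable section

/-! ### comparison of the two coordinates with numbers -/

section
variable {s t : ℝ} (g : Good s t)
include g

theorem lt_UU_iff {u v y : ℝ} (hu : 0 ≤ u) (hu1 : u < 1) (hv : 0 ≤ v) (hy : 0 ≤ y) :
    y < UU s t u v ↔ y ^ 2 * (2 * s * (1 - u ^ 2) ^ 2) < u ^ 2 * VV s t u v * (1 - y ^ 2) := by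
  have hV := VV_pos g hu1 hv
  have h1 := one_sub_sq_pos hu hu1
  unfold UU
  rw [lt_phi (by linarith [g.hs]) (show 0 ≤ AA s t u v from mul_nonneg (aa_nonneg _) hV.le) hy]
  have e : y ^ 2 * (AA s t u v + 2 * s) - AA s t u v =
      (y ^ 2 * (2 * s * (1 - u ^ 2) ^ 2) - u ^ 2 * VV s t u v * (1 - y ^ 2)) /
        (1 - u ^ 2) ^ 2 := by
    unfold AA aa
    field_simp
    ring
  have h2 : 0 < (1 - u ^ 2) ^ 2 := by positivity
  rw [← sub_neg, e, div_neg_iff, ← sub_neg (b := u ^ 2 * VV s t u v * (1 - y ^ 2))]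
  constructor
  · rintro (h | h)
    · exact absurd h2 (not_lt.2 h.2.le)
    · exact h.1
  · intro h; exact Or.inr ⟨h, h2⟩

theorem UU_lt_iff {u v y : ℝ} (hu : 0 ≤ u) (hu1 : u < 1) (hv : 0 ≤ v) (hy : 0 < y) :
    UU s t u v < y ↔ u ^ 2 * VV s t u v * (1 - y ^ 2) < y ^ 2 * (2 * s * (1 - u ^ 2) ^ 2) := by
  have hV := VV_pos g hu1 hv
  have h1 := one_sub_sq_pos hu hu1
  unfold UU
  rw [phi_lt (by linarith [g.hs]) (show 0 ≤ AA s t u v from mul_nonneg (aa_nonneg _) hV.le) hy]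
  have e : AA s t u v - y ^ 2 * (AA s t u v + 2 * s) =
      (u ^ 2 * VV s t u v * (1 - y ^ 2) - y ^ 2 * (2 * s * (1 - u ^ 2) ^ 2)) /
        (1 - u ^ 2) ^ 2 := by
    unfold AA aa
    field_simp
    ring
  have h2 : 0 < (1 - u ^ 2) ^ 2 := by positivity
  rw [← sub_neg, e, div_neg_iff, ← sub_neg (b := y ^ 2 * (2 * s * (1 - u ^ 2) ^ 2))]
  constructor
  · rintro (h | h)
    · exact absurd h2 (not_lt.2 h.2.le)
    · exact h.1
  · intro h; exact Or.inr ⟨h, h2⟩

theorem YY_lt_iff {u v y : ℝ} (hu1 : u < 1) (hv : 0 ≤ v) (hv1 : v < 1) (hy : 0 < y) :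
    YY s t u v < y ↔ v ^ 2 * VV s t u v * (1 - y ^ 2) < y ^ 2 * (2 * t * (1 - v ^ 2) ^ 2) := by
  have hV := VV_pos g hu1 hv
  have h1 := one_sub_sq_pos hv hv1
  unfold YY
  rw [phi_lt (by linarith [g.ht]) (show 0 ≤ BB s t u v from mul_nonneg (aa_nonneg _) hV.le) hy]
  have e : BB s t u v - y ^ 2 * (BB s t u v + 2 * t) =
      (v ^ 2 * VV s t u v * (1 - y ^ 2) - y ^ 2 * (2 * t * (1 - v ^ 2) ^ 2)) /
        (1 - v ^ 2) ^ 2 := by
    unfold BB aa
    field_simp
    ring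
  have h2 : 0 < (1 - v ^ 2) ^ 2 := by positivity
  rw [← sub_neg, e, div_neg_iff, ← sub_neg (b := y ^ 2 * (2 * t * (1 - v ^ 2) ^ 2))]
  constructor
  · rintro (h | h)
    · exact absurd h2 (not_lt.2 h.2.le)
    · exact h.1
  · intro h; exact Or.inr ⟨h, h2⟩

end

/-- the central parameter, first coordinate -/
def s0 : ℝ := 15 / 289

/-- the central parameter, second coordinate -/
def t0 : ℝ := 27 / 578

theorem good0 : Good s0 t0 where
  hs := by norm_num [s0]
  ht := by norm_num [t0]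
  hp := by norm_num [s0, t0]
  hd := by norm_num [s0, t0]

theorem VV0 (u v : ℝ) : 83521 * VV s0 t0 u v =
    12324 - 21840 * u + 2808 * v + 16590 * u ^ 2 + 7074 * v ^ 2 + 11340 * (u * v) := by
  unfold VV s0 t0; ring

theorem Wn_cast (a b : ℤ) : ((Wn a b : ℤ) : ℝ) =
    39062500 * (83521 * VV s0 t0 ((a : ℝ) / 6250) ((b : ℝ) / 6250)) := by
  rw [VV0]
  unfold Wn
  push_cast
  ring

theorem of_ugt {a b c : ℤ} (ha : 0 ≤ a) (ha1 : a < 6250) (hb : 0 ≤ b) (hc : 0 ≤ c)
    (h : ugt a b c = true) :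
    (c : ℝ) / 6250 < UU s0 t0 ((a : ℝ) / 6250) ((b : ℝ) / 6250) := by
  have ha' : (0 : ℝ) ≤ a := by exact_mod_cast ha
  have ha1' : (a : ℝ) < 6250 := by exact_mod_cast ha1
  have hb' : (0 : ℝ) ≤ b := by exact_mod_cast hb
  have hc' : (0 : ℝ) ≤ c := by exact_mod_cast hc
  rw [lt_UU_iff good0 (by positivity) (by linarith) (by positivity) (by positivity)]
  have h1 : (8670 * (c * c) * ((39062500 - a * a) * (39062500 - a * a)) : ℤ) <
    a * a * Wn a b * (39062500 - c * c) := by simpa [ugt] using h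
  have h2 : (8670 * ((c : ℝ) * c) * ((39062500 - (a : ℝ) * a) * (39062500 - (a : ℝ) * a))) <
    (a : ℝ) * a * ((Wn a b : ℤ) : ℝ) * (39062500 - (c : ℝ) * c) := by exact_mod_cast h1
  rw [Wn_cast] at h2
  generalize VV s0 t0 ((a : ℝ) / 6250) ((b : ℝ) / 6250) = V at h2 ⊢
  have e1 : ((c : ℝ) / 6250) ^ 2 * (2 * s0 * (1 - ((a : ℝ) / 6250) ^ 2) ^ 2) =
      (8670 * ((c : ℝ) * c) * ((39062500 - (a : ℝ) * a) * (39062500 - (a : ℝ) * a))) /
        (39062500 ^ 3 * 83521) := by unfold s0; ring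
  have e2 : ((a : ℝ) / 6250) ^ 2 * V * (1 - ((c : ℝ) / 6250) ^ 2) =
      ((a : ℝ) * a * (39062500 * (83521 * V)) * (39062500 - (c : ℝ) * c)) /
        (39062500 ^ 3 * 83521) := by ring
  rw [e1, e2]
  exact div_lt_div_of_pos_right h2 (by norm_num)

theorem of_ult {a b c : ℤ} (ha : 0 ≤ a) (ha1 : a < 6250) (hb : 0 ≤ b) (hc : 0 < c)
    (h : ult a b c = true) :
    UU s0 t0 ((a : ℝ) / 6250) ((b : ℝ) / 6250) < (c : ℝ) / 6250 := by
  have ha' : (0 : ℝ) ≤ a := by exact_mod_cast ha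
  have ha1' : (a : ℝ) < 6250 := by exact_mod_cast ha1
  have hb' : (0 : ℝ) ≤ b := by exact_mod_cast hb
  have hc' : (0 : ℝ) < c := by exact_mod_cast hc
  rw [UU_lt_iff good0 (by positivity) (by linarith) (by positivity) (by positivity)]
  have h1 : (a * a * Wn a b * (39062500 - c * c) : ℤ) <
    8670 * (c * c) * ((39062500 - a * a) * (39062500 - a * a)) := by simpa [ult] using h
  have h2 : (a : ℝ) * a * ((Wn a b : ℤ) : ℝ) * (39062500 - (c : ℝ) * c) <
    (8670 * ((c : ℝ) * c) * ((39062500 - (a : ℝ) * a) * (39062500 - (a : ℝ) * a))) := by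
    exact_mod_cast h1
  rw [Wn_cast] at h2
  generalize VV s0 t0 ((a : ℝ) / 6250) ((b : ℝ) / 6250) = V at h2 ⊢
  have e1 : ((c : ℝ) / 6250) ^ 2 * (2 * s0 * (1 - ((a : ℝ) / 6250) ^ 2) ^ 2) =
      (8670 * ((c : ℝ) * c) * ((39062500 - (a : ℝ) * a) * (39062500 - (a : ℝ) * a))) /
        (39062500 ^ 3 * 83521) := by unfold s0; ring
  have e2 : ((a : ℝ) / 6250) ^ 2 * V * (1 - ((c : ℝ) / 6250) ^ 2) =
      ((a : ℝ) * a * (39062500 * (83521 * V)) * (39062500 - (c : ℝ) * c)) /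
        (39062500 ^ 3 * 83521) := by ring
  rw [e1, e2]
  exact div_lt_div_of_pos_right h2 (by norm_num)

theorem of_vlt {a b c : ℤ} (ha1 : a < 6250) (hb : 0 ≤ b) (hb1 : b < 6250) (hc : 0 < c)
    (h : vlt a b c = true) :
    YY s0 t0 ((a : ℝ) / 6250) ((b : ℝ) / 6250) < (c : ℝ) / 6250 := by
  have ha1' : (a : ℝ) < 6250 := by exact_mod_cast ha1
  have hb' : (0 : ℝ) ≤ b := by exact_mod_cast hb
  have hb1' : (b : ℝ) < 6250 := by exact_mod_cast hb1
  have hc' : (0 : ℝ) < c := by exact_mod_cast hc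
  rw [YY_lt_iff good0 (by linarith) (by positivity) (by linarith) (by positivity)]
  have h1 : (b * b * Wn a b * (39062500 - c * c) : ℤ) <
    7803 * (c * c) * ((39062500 - b * b) * (39062500 - b * b)) := by simpa [vlt] using h
  have h2 : (b : ℝ) * b * ((Wn a b : ℤ) : ℝ) * (39062500 - (c : ℝ) * c) <
    (7803 * ((c : ℝ) * c) * ((39062500 - (b : ℝ) * b) * (39062500 - (b : ℝ) * b))) := by
    exact_mod_cast h1
  rw [Wn_cast] at h2
  generalize VV s0 t0 ((a : ℝ) / 6250) ((b : ℝ) / 6250) = V at h2 ⊢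
  have e1 : ((c : ℝ) / 6250) ^ 2 * (2 * t0 * (1 - ((b : ℝ) / 6250) ^ 2) ^ 2) =
      (7803 * ((c : ℝ) * c) * ((39062500 - (b : ℝ) * b) * (39062500 - (b : ℝ) * b))) /
        (39062500 ^ 3 * 83521) := by unfold t0; ring
  have e2 : ((b : ℝ) / 6250) ^ 2 * V * (1 - ((c : ℝ) / 6250) ^ 2) =
      ((b : ℝ) * b * (39062500 * (83521 * V)) * (39062500 - (c : ℝ) * c)) /
        (39062500 ^ 3 * 83521) := by ring
  rw [e1, e2]
  exact div_lt_div_of_pos_right h2 (by norm_num)

/-! ### continuity in the parameters -/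

/-- parameters and point together -/
abbrev Par : Type := (ℝ × ℝ) × (ℝ × ℝ)

theorem contVV : Continuous (fun p : Par => VV p.1.1 p.1.2 p.2.1 p.2.2) := by
  unfold VV; fun_prop

theorem contAt_UU {s t u v : ℝ} (g : Good s t) (hu : 0 ≤ u) (hu1 : u < 1) (hv : 0 ≤ v) :
    ContinuousAt (fun p : Par => UU p.1.1 p.1.2 p.2.1 p.2.2) ((s, t), (u, v)) := by
  have h1 := one_sub_sq_pos hu hu1
  have hV := VV_pos g hu1 hv
  have hA : 0 ≤ AA s t u v := mul_nonneg (aa_nonneg _) hV.le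
  have cA : ContinuousAt (fun p : Par => AA p.1.1 p.1.2 p.2.1 p.2.2) ((s, t), (u, v)) := by
    unfold AA aa
    apply ContinuousAt.mul _ contVV.continuousAt
    exact ContinuousAt.div (by fun_prop) (by fun_prop) (pow_pos h1 2).ne'
  unfold UU phi
  apply ContinuousAt.sqrt
  have hs := g.hs
  exact ContinuousAt.div cA (cA.add (by fun_prop))
    (show AA s t u v + 2 * s ≠ 0 by positivity)

theorem contAt_YY {s t u v : ℝ} (g : Good s t) (hu1 : u < 1) (hv : 0 ≤ v) (hv1 : v < 1) :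
    ContinuousAt (fun p : Par => YY p.1.1 p.1.2 p.2.1 p.2.2) ((s, t), (u, v)) := by
  have h1 := one_sub_sq_pos hv hv1
  have hV := VV_pos g hu1 hv
  have hB : 0 ≤ BB s t u v := mul_nonneg (aa_nonneg _) hV.le
  have cB : ContinuousAt (fun p : Par => BB p.1.1 p.1.2 p.2.1 p.2.2) ((s, t), (u, v)) := by
    unfold BB aa
    apply ContinuousAt.mul _ contVV.continuousAt
    exact ContinuousAt.div (by fun_prop) (by fun_prop) (pow_pos h1 2).ne'
  unfold YY phi
  apply ContinuousAt.sqrt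
  have ht := g.ht
  exact ContinuousAt.div cB (cB.add (by fun_prop))
    (show BB s t u v + 2 * t ≠ 0 by positivity)

theorem ev_lt_UU {u v y : ℝ} (hu : 0 ≤ u) (hu1 : u < 1) (hv : 0 ≤ v) (h : y < UU s0 t0 u v) :
    ∀ᶠ p : ℝ × ℝ in 𝓝 (s0, t0), y < UU p.1 p.2 u v := by
  have c := contAt_UU good0 hu hu1 hv
  have c2 : ContinuousAt (fun p : ℝ × ℝ => UU p.1 p.2 u v) (s0, t0) :=
    ContinuousAt.comp (f := fun p : ℝ × ℝ => ((p, (u, v)) : Par)) (x := (s0, t0)) c
      (by fun_prop)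
  exact c2.eventually_const_lt h

theorem ev_UU_lt {u v y : ℝ} (hu : 0 ≤ u) (hu1 : u < 1) (hv : 0 ≤ v) (h : UU s0 t0 u v < y) :
    ∀ᶠ p : ℝ × ℝ in 𝓝 (s0, t0), UU p.1 p.2 u v < y := by
  have c := contAt_UU good0 hu hu1 hv
  have c2 : ContinuousAt (fun p : ℝ × ℝ => UU p.1 p.2 u v) (s0, t0) :=
    ContinuousAt.comp (f := fun p : ℝ × ℝ => ((p, (u, v)) : Par)) (x := (s0, t0)) c
      (by fun_prop)
  exact c2.eventually_lt_const h

theorem ev_YY_lt {u v y : ℝ} (hu1 : u < 1) (hv : 0 ≤ v) (hv1 : v < 1) (h : YY s0 t0 u v < y) :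
    ∀ᶠ p : ℝ × ℝ in 𝓝 (s0, t0), YY p.1 p.2 u v < y := by
  have c := contAt_YY good0 hu1 hv hv1
  have c2 : ContinuousAt (fun p : ℝ × ℝ => YY p.1 p.2 u v) (s0, t0) :=
    ContinuousAt.comp (f := fun p : ℝ × ℝ => ((p, (u, v)) : Par)) (x := (s0, t0)) c
      (by fun_prop)
  exact c2.eventually_lt_const h

theorem ev_good : ∀ᶠ p : ℝ × ℝ in 𝓝 (s0, t0), Good p.1 p.2 := by
  have h1 : ∀ᶠ p : ℝ × ℝ in 𝓝 (s0, t0), 0 < p.1 :=
    continuous_fst.continuousAt.eventually_const_lt good0.hs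
  have h2 : ∀ᶠ p : ℝ × ℝ in 𝓝 (s0, t0), 0 < p.2 :=
    continuous_snd.continuousAt.eventually_const_lt good0.ht
  have h3 : ∀ᶠ p : ℝ × ℝ in 𝓝 (s0, t0), 0 < 1 - 14 * p.1 - 2 * p.2 :=
    (show ContinuousAt (fun p : ℝ × ℝ => 1 - 14 * p.1 - 2 * p.2) (s0, t0) by
      fun_prop).eventually_const_lt good0.hp
  have h4 : ∀ᶠ p : ℝ × ℝ in 𝓝 (s0, t0),
      0 < 0.96 * (1 - 14 * p.1 - 2 * p.2) - 1.4 * (2 * p.2) :=
    (show ContinuousAt (fun p : ℝ × ℝ => 0.96 * (1 - 14 * p.1 - 2 * p.2) - 1.4 * (2 * p.2))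
      (s0, t0) by fun_prop).eventually_const_lt (by norm_num [s0, t0])
  filter_upwards [h1, h2, h3, h4] with p a1 a2 a3 a4
  exact ⟨a1, a2, a3, by linarith⟩

/-! ### the table, in real form -/

theorem get_lt (T k : ℕ) : get T k < 4096 := Nat.mod_lt _ (by norm_num)

/-- all the inequalities of the table hold at the parameter `(s, t)` -/
structure TabOK (s t : ℝ) : Prop where
  good : Good s t
  L1 : ∀ m < 1015, YY s t ((xi (m + 1) : ℝ) / 6250) (((m + 1 : ℕ) : ℝ) / 6250) <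
    (kw (m + 1) : ℝ) / 6250
  L2 : ∀ m < 1015, (xi (kw (m + 1)) : ℝ) / 6250 <
    UU s t ((xi (m + 1) : ℝ) / 6250) ((m : ℝ) / 6250)
  T1 : ∀ i < 665, UU s t (((2514 + i + 1 : ℕ) : ℝ) / 6250) ((tp (2514 + i) : ℝ) / 6250) <
    ((jw (2514 + i) + 1 : ℕ) : ℝ) / 6250
  T2 : ∀ i < 665, jw (2514 + i) + 1 ≤ 2562 ∨ (jw (2514 + i) ≤ 3178 ∧
    YY s t (((2514 + i : ℕ) : ℝ) / 6250) ((tp (2514 + i) : ℝ) / 6250) <
      (tp (jw (2514 + i)) : ℝ) / 6250)
  B : UU s t ((2514 : ℝ) / 6250) ((1013 : ℝ) / 6250) < (2562 : ℝ) / 6250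

theorem kw_pos {m : ℕ} (hm : m < 1015) : 1 ≤ kw (m + 1) := by
  have := chkL_all m hm
  simp only [chkL, Bool.and_eq_true] at this
  exact Nat.le_of_ble_eq_true this.1.2

theorem kw_le {m : ℕ} (hm : m < 1015) : kw (m + 1) ≤ 1015 := by
  have := chkL_all m hm
  simp only [chkL, Bool.and_eq_true] at this
  exact Nat.le_of_ble_eq_true this.1.1.2

theorem xi_step {m : ℕ} (hm : m < 1015) : xi m ≤ xi (m + 1) := by
  have := chkL_all m hm
  simp only [chkL, Bool.and_eq_true] at this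
  exact Nat.le_of_ble_eq_true this.2

theorem xi_mono {m k : ℕ} (h : m ≤ k) (hk : k ≤ 1015) : xi m ≤ xi k := by
  induction k, h using Nat.le_induction with
  | base => exact le_rfl
  | succ k _ ih => exact (ih (by omega)).trans (xi_step (by omega))

theorem xi_ge {m : ℕ} (hm : m ≤ 1015) : 1416 ≤ xi m := by
  rw [← xi_zero]; exact xi_mono (Nat.zero_le _) hm

theorem xi_le {m : ℕ} (hm : m ≤ 1015) : xi m ≤ 2541 := by
  rw [← xi_last]; exact xi_mono hm le_rfl

theorem tp_mono {a b : ℕ} (ha : 2562 ≤ a) (h : a ≤ b) (hb : b ≤ 3178) : tp b ≤ tp a := by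
  induction b, h using Nat.le_induction with
  | base => exact le_rfl
  | succ b h ih =>
    have := tp_anti (b - 2562) (by omega)
    have e : 2562 + (b - 2562) = b := by omega
    rw [e] at this
    exact this.trans (ih (by omega))

theorem tp_le {a : ℕ} (ha : 2514 ≤ a) (h : a ≤ 3178) : tp a ≤ 1015 := by
  rcases lt_or_ge a 2562 with h1 | h1
  · have := (tp_left (a - 2514) (by omega)).1
    have e : 2514 + (a - 2514) = a := by omega
    rwa [e] at this
  · exact (tp_mono le_rfl h1 h).trans tp_first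

theorem ev_tabOK : ∀ᶠ p : ℝ × ℝ in 𝓝 (s0, t0), TabOK p.1 p.2 := by
  have hL1 : ∀ᶠ p : ℝ × ℝ in 𝓝 (s0, t0), ∀ m ∈ {m : ℕ | m < 1015},
      YY p.1 p.2 ((xi (m + 1) : ℝ) / 6250) (((m + 1 : ℕ) : ℝ) / 6250) <
        (kw (m + 1) : ℝ) / 6250 := by
    rw [eventually_all_finite (Set.finite_lt_nat 1015)]
    intro m hm
    simp only [Set.mem_ofPred_eq] at hm
    have h0 := chkL_all m hm
    simp only [chkL, Bool.and_eq_true] at h0
    have h1 : vlt ((xi (m + 1) : ℕ) : ℤ) ((m + 1 : ℕ) : ℤ) ((kw (m + 1) : ℕ) : ℤ) = true :=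
      h0.1.1.1.1
    have hx := xi_le (m := m + 1) (by omega)
    have hk := kw_pos hm
    have h2 := of_vlt (by omega) (by omega) (by omega) (by omega) h1
    have hx' : (xi (m + 1) : ℝ) ≤ 2541 := by exact_mod_cast hx
    have hm' : ((m + 1 : ℕ) : ℝ) ≤ 1015 := by exact_mod_cast hm
    apply ev_YY_lt (by linarith) (by positivity) (by linarith)
    simpa only [Int.cast_natCast] using h2
  have hL2 : ∀ᶠ p : ℝ × ℝ in 𝓝 (s0, t0), ∀ m ∈ {m : ℕ | m < 1015},
      (xi (kw (m + 1)) : ℝ) / 6250 <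
        UU p.1 p.2 ((xi (m + 1) : ℝ) / 6250) ((m : ℝ) / 6250) := by
    rw [eventually_all_finite (Set.finite_lt_nat 1015)]
    intro m hm
    simp only [Set.mem_ofPred_eq] at hm
    have h0 := chkL_all m hm
    simp only [chkL, Bool.and_eq_true] at h0
    have h1 : ugt ((xi (m + 1) : ℕ) : ℤ) (m : ℤ) ((xi (kw (m + 1)) : ℕ) : ℤ) = true :=
      h0.1.1.1.2
    have hx := xi_le (m := m + 1) (by omega)
    have h2 := of_ugt (by omega) (by omega) (by omega) (by omega) h1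
    have hx' : (xi (m + 1) : ℝ) ≤ 2541 := by exact_mod_cast hx
    apply ev_lt_UU (by positivity) (by linarith) (by positivity)
    simpa only [Int.cast_natCast] using h2
  have hT1 : ∀ᶠ p : ℝ × ℝ in 𝓝 (s0, t0), ∀ i ∈ {i : ℕ | i < 665},
      UU p.1 p.2 (((2514 + i + 1 : ℕ) : ℝ) / 6250) ((tp (2514 + i) : ℝ) / 6250) <
        ((jw (2514 + i) + 1 : ℕ) : ℝ) / 6250 := by
    rw [eventually_all_finite (Set.finite_lt_nat 665)]
    intro i hi
    simp only [Set.mem_ofPred_eq] at hi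
    have h0 := chkT_all i hi
    simp only [chkT, Bool.and_eq_true] at h0
    have h1 := h0.1
    have h2 := of_ult (by omega) (by omega) (by omega) (by omega) h1
    have hi1 : 2514 + i + 1 ≤ 3179 := by omega
    have hi' : ((2514 + i + 1 : ℕ) : ℝ) ≤ 3179 := by exact_mod_cast hi1
    apply ev_UU_lt (div_nonneg (Nat.cast_nonneg _) (by norm_num)) (by linarith)
      (div_nonneg (Nat.cast_nonneg _) (by norm_num))
    simpa only [Int.cast_natCast] using h2
  have hT2 : ∀ᶠ p : ℝ × ℝ in 𝓝 (s0, t0), ∀ i ∈ {i : ℕ | i < 665},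
      jw (2514 + i) + 1 ≤ 2562 ∨ (jw (2514 + i) ≤ 3178 ∧
        YY p.1 p.2 (((2514 + i : ℕ) : ℝ) / 6250) ((tp (2514 + i) : ℝ) / 6250) <
          (tp (jw (2514 + i)) : ℝ) / 6250) := by
    rw [eventually_all_finite (Set.finite_lt_nat 665)]
    intro i hi
    simp only [Set.mem_ofPred_eq] at hi
    have h0 := chkT_all i hi
    simp only [chkT, Bool.and_eq_true, Bool.or_eq_true] at h0
    rcases h0.2 with h | ⟨h, h'⟩
    · exact Eventually.of_forall fun p => Or.inl (Nat.le_of_ble_eq_true h)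
    · have h3 := Nat.le_of_ble_eq_true h
      rcases lt_or_ge (jw (2514 + i)) 2562 with h4 | h4
      · exact Eventually.of_forall fun p => Or.inl h4
      have ht := tp_le (a := 2514 + i) (by omega) (by omega)
      rcases Nat.eq_zero_or_pos (tp (jw (2514 + i))) with hz | hz
      · exfalso
        have h5 : (tp 3178) ≤ tp (jw (2514 + i)) := tp_mono h4 h3 le_rfl
        have h6 : tp 3178 = 609 := by decide +kernel
        omega
      have h2 := of_vlt (by omega) (by omega) (by omega) (by exact_mod_cast hz) h'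
      have hi1 : 2514 + i ≤ 3178 := by omega
      have hi' : ((2514 + i : ℕ) : ℝ) ≤ 3178 := by exact_mod_cast hi1
      have ht' : (tp (2514 + i) : ℝ) ≤ 1015 := by exact_mod_cast ht
      have h7 : ∀ᶠ p : ℝ × ℝ in 𝓝 (s0, t0),
          YY p.1 p.2 (((2514 + i : ℕ) : ℝ) / 6250) ((tp (2514 + i) : ℝ) / 6250) <
          (tp (jw (2514 + i)) : ℝ) / 6250 := by
        apply ev_YY_lt (by linarith) (div_nonneg (Nat.cast_nonneg _) (by norm_num))
          (by linarith)
        simpa only [Int.cast_natCast] using h2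
      filter_upwards [h7] with p hp
      exact Or.inr ⟨h3, hp⟩
  have hB : ∀ᶠ p : ℝ × ℝ in 𝓝 (s0, t0),
      UU p.1 p.2 ((2514 : ℝ) / 6250) ((1013 : ℝ) / 6250) < (2562 : ℝ) / 6250 := by
    apply ev_UU_lt (by norm_num) (by norm_num) (by norm_num)
    have := of_ult (by norm_num) (by norm_num) (by norm_num) (by norm_num) base_cell
    simpa only [Int.cast_ofNat] using this
  filter_upwards [ev_good, hL1, hL2, hT1, hT2, hB] with p a b c d e f
  exact ⟨a, b, c, d, e, f⟩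

/-! ### the trapping region -/

/-- the trapping region -/
structure InK (u v : ℝ) : Prop where
  u_lo : 1416 / 6250 ≤ u
  u_hi : u < 3179 / 6250
  v_lo : 0 < v
  v_hi : v ≤ 1015 / 6250
  left : ∀ m : ℕ, m < 1015 → (m : ℝ) / 6250 < v → (xi (m + 1) : ℝ) / 6250 ≤ u
  right : ∀ a : ℕ, 2562 ≤ a → a ≤ 3178 → (a : ℝ) / 6250 ≤ u → v ≤ (tp a : ℝ) / 6250

theorem InK.step {s t u v : ℝ} (T : TabOK s t) (h : InK u v) :
    InK (UU s t u v) (YY s t u v) := by
  have g := T.good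
  have hu0 : 0 < u := lt_of_lt_of_le (by norm_num) h.u_lo
  have hu52 : u ≤ 0.52 := h.u_hi.le.trans (by norm_num)
  have hu1 : u < 1 := by linarith
  have hv17 : v ≤ 0.17 := h.v_hi.trans (by norm_num)
  have hv0 := h.v_lo
  -- the level
  obtain ⟨m, hm1, hm2, hm3⟩ : ∃ m : ℕ, m < 1015 ∧ (m : ℝ) / 6250 < v ∧
      v ≤ ((m + 1 : ℕ) : ℝ) / 6250 := by
    have hn1 : 0 < ⌈6250 * v⌉₊ := Nat.ceil_pos.2 (by positivity)
    have hn2 : ⌈6250 * v⌉₊ ≤ 1015 := Nat.ceil_le.2 (by
      have := h.v_hi; push_cast; linarith)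
    obtain ⟨m, hm⟩ : ∃ m, ⌈6250 * v⌉₊ = m + 1 := ⟨⌈6250 * v⌉₊ - 1, by omega⟩
    refine ⟨m, by omega, ?_, ?_⟩
    · have : m < ⌈6250 * v⌉₊ := by omega
      have := Nat.lt_ceil.1 this
      linarith
    · have := Nat.le_ceil (6250 * v)
      rw [hm] at this
      linarith
  have hx := h.left m hm1 hm2
  have hx0 : 0 < (xi (m + 1) : ℝ) / 6250 := by
    have : (1416 : ℝ) ≤ xi (m + 1) := by exact_mod_cast xi_ge (by omega)
    positivity
  have hkle := kw_le hm1
  have hm4 : ((m + 1 : ℕ) : ℝ) ≤ 1015 := by exact_mod_cast hm1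
  have hU : (xi (kw (m + 1)) : ℝ) / 6250 < UU s t u v :=
    (T.L2 m hm1).trans_le (UU_mono g hx0 hx hu1 (by positivity) hm2.le)
  have hY : YY s t u v < (kw (m + 1) : ℝ) / 6250 :=
    (YY_mono g hx0.le hx hu52 hv0.le hm3 (by linarith)).trans_lt (T.L1 m hm1)
  -- the cell
  obtain ⟨a, ha1, ha2⟩ : ∃ a : ℕ, (a : ℝ) / 6250 ≤ u ∧ u < ((a + 1 : ℕ) : ℝ) / 6250 := by
    refine ⟨⌊6250 * u⌋₊, ?_, ?_⟩
    · have := Nat.floor_le (show 0 ≤ 6250 * u by positivity)
      linarith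
    · have := Nat.lt_floor_add_one (6250 * u)
      push_cast
      linarith
  have ha3 : a ≤ 3178 := by
    have h1 : (a : ℝ) < 3179 := by have := h.u_hi; linarith
    have h2 : a < 3179 := by exact_mod_cast h1
    omega
  have key : UU s t u v < 3179 / 6250 ∧
      ∀ a' : ℕ, 2562 ≤ a' → a' ≤ 3178 → (a' : ℝ) / 6250 ≤ UU s t u v →
        YY s t u v ≤ (tp a' : ℝ) / 6250 := by
    rcases lt_or_ge a 2514 with hcase | hcase
    · have ha4 : u < 2514 / 6250 := by
        have : ((a + 1 : ℕ) : ℝ) ≤ 2514 := by exact_mod_cast hcase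
        linarith
      have hv13 : v ≤ 1013 / 6250 := by
        by_contra hcon
        push Not at hcon
        have h1 := h.left 1013 (by norm_num) (by exact_mod_cast hcon)
        have h2 : (2514 : ℝ) ≤ xi (1013 + 1) := by exact_mod_cast base_xi
        linarith
      have h3 : UU s t u v < 2562 / 6250 :=
        (UU_mono g hu0 ha4.le (by norm_num) hv0.le hv13).trans_lt T.B
      refine ⟨by linarith, fun a' h1 _ h2 => ?_⟩
      have : (2562 : ℝ) ≤ a' := by exact_mod_cast h1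
      linarith
    · have hvt : v ≤ (tp a : ℝ) / 6250 := by
        rcases lt_or_ge a 2562 with h1 | h1
        · have h2 := (tp_left (a - 2514) (by omega))
          have e : 2514 + (a - 2514) = a := by omega
          rw [e] at h2
          rcases h2.2 with h3 | h3
          · rw [h3]; exact_mod_cast h.v_hi
          · by_contra hcon
            push Not at hcon
            have h4 : tp a < 1015 := by
              rcases lt_or_ge (tp a) 1015 with h5 | h5
              · exact h5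
              · exfalso
                have h6 : tp a = 1015 := le_antisymm h2.1 h5
                rw [h6] at hcon
                have := h.v_hi
                norm_num at hcon
                linarith
            have h5 := h.left (tp a) h4 hcon
            have h6 : ((a + 1 : ℕ) : ℝ) ≤ xi (tp a + 1) := by exact_mod_cast h3
            linarith
        · exact h.right a h1 ha3 ha1
      have e : 2514 + (a - 2514) = a := by omega
      have hT1 := T.T1 (a - 2514) (by omega)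
      have hT2 := T.T2 (a - 2514) (by omega)
      rw [e] at hT1 hT2
      have htp := tp_le hcase ha3
      have htp' : (tp a : ℝ) ≤ 1015 := by exact_mod_cast htp
      have ha4 : a + 1 ≤ 3179 := by omega
      have ha5 : ((a + 1 : ℕ) : ℝ) ≤ 3179 := by exact_mod_cast ha4
      have hUa : UU s t u v < ((jw a + 1 : ℕ) : ℝ) / 6250 :=
        (UU_mono g hu0 ha2.le (by linarith) hv0.le hvt).trans_lt hT1
      rcases hT2 with h1 | ⟨h1, h2⟩
      · have h3 : ((jw a + 1 : ℕ) : ℝ) ≤ 2562 := by exact_mod_cast h1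
        refine ⟨by linarith, fun a' h4 _ h5 => ?_⟩
        have : (2562 : ℝ) ≤ a' := by exact_mod_cast h4
        linarith
      · have h3' : jw a + 1 ≤ 3179 := by omega
        have h3 : ((jw a + 1 : ℕ) : ℝ) ≤ 3179 := by exact_mod_cast h3'
        have hYa : YY s t u v < (tp (jw a) : ℝ) / 6250 :=
          (YY_mono g (by positivity) ha1 hu52 hv0.le hvt (by linarith)).trans_lt h2
        refine ⟨by linarith, fun a' h4 h5 h6 => ?_⟩
        have h7 : (a' : ℝ) < ((jw a + 1 : ℕ) : ℝ) := by linarith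
        have h8 : a' < jw a + 1 := by exact_mod_cast h7
        have h9 : tp (jw a) ≤ tp a' := tp_mono h4 (by omega) h1
        have h10 : (tp (jw a) : ℝ) ≤ tp a' := by exact_mod_cast h9
        linarith
  refine ⟨?_, key.1, YY_pos g hu1 hv0 (by linarith), ?_, ?_, key.2⟩
  · have : (1416 : ℝ) ≤ xi (kw (m + 1)) := by exact_mod_cast xi_ge hkle
    linarith
  · have : (kw (m + 1) : ℝ) ≤ 1015 := by exact_mod_cast hkle
    linarith
  · intro m' hm' h1
    have h2 : (m' : ℝ) < kw (m + 1) := by linarith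
    have h3 : m' < kw (m + 1) := by exact_mod_cast h2
    have h4 : xi (m' + 1) ≤ xi (kw (m + 1)) := xi_mono h3 hkle
    have h5 : (xi (m' + 1) : ℝ) ≤ xi (kw (m + 1)) := by exact_mod_cast h4
    linarith

end

end Pool.Agent.H64.IC
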